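import Pool.Agent.Y466.FT.Abs

/-!
# Functions of finite degree on words: a finite list of counts determines their values

`M` is a monoid, `E` and `R` are sets of pairs (double points and relations).  The letters `s : L` stand
for elements `X s` of `M`; every word has a class in a finite group `Q`, and `r q` is an element of `M`
which represents the class `q`.
-/

set_option autoImplicit false

namespace Pool.Agent.T6.H96.LB

open Pool.Agent.Y466.FT Finset

section
variable {M : Type} [Monoid M] {A : Type} [AddCommGroup A] {E R : Set (M × M)}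

/-- `p` and `p'` are related by every congruence which contains `R` and `E`. -/
def Rl (R E : Set (M × M)) (p p' : M) : Prop :=
  ∀ c : Con M, (∀ r ∈ R, c r.1 r.2) → (∀ e ∈ E, c e.1 e.2) → c p p'

omit [AddCommGroup A] in
theorem iv_left {φ : M → A} (h : Iv R φ) (b : M) : Iv R (fun p => φ (b * p)) := by
  intro r hr a c
  have := h r hr (b * a) c
  simpa only [mul_assoc] using this

theorem dg_rl {n : ℕ} {φ : M → A} (h : Dg E (n + 1) φ) (hR : Iv R φ) {p p' : M}
    (hp : Rl R E p p') : Dg E n (fun u => φ (p * u) - φ (p' * u)) := by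
  have key : cg E n φ p p' := by
    refine hp _ (fun r hr a b => ?_) (fun e he a b => ?_)
    · have : (fun u => φ (a * r.1 * b * u) - φ (a * r.2 * b * u)) = fun _ => (0 : A) := by
        funext u
        have := hR r hr a (b * u)
        simp only [mul_assoc] at this ⊢
        rw [this, sub_self]
      rw [this]
      exact Dg.zero n
    · have := (h e he a).trans b
      refine this.congr fun u => ?_
      simp only [mul_assoc]
  refine (key 1 1).congr fun u => ?_
  simp

theorem iv_sub {φ ψ : M → A} (h : Iv R φ) (h' : Iv R ψ) : Iv R (fun p => φ p - ψ p) := by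
  intro r hr a c
  show _ - _ = _ - _
  rw [h r hr a c, h' r hr a c]

variable {L Q : Type} [Fintype L] [DecidableEq L] [Group Q] [Fintype Q] [DecidableEq Q]

/-- The index set of the counts. -/
def Sy (L Q : Type) : ℕ → Type
  | 0 => Q
  | n + 1 => Q ⊕ ((Q × L) × Sy L Q n)

instance fS (L Q : Type) [Fintype L] [Fintype Q] : (n : ℕ) → Fintype (Sy L Q n)
  | 0 => (inferInstance : Fintype Q)
  | n + 1 => by
    haveI := fS L Q n
    exact (inferInstance : Fintype (Q ⊕ ((Q × L) × Sy L Q n)))

variable (cl : L → Q)

/-- Summation over the places of the letter `s` at which the class is `a`. -/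
def cntI (f : List L → ℕ) (a : Q) (s : L) : Q → List L → ℕ
  | _, [] => 0
  | q, s' :: w => cntI f a s (q * cl s') w + if q = a ∧ s' = s then f w else 0

/-- The counts. `q` is the class of the part of the word since the last letter chosen. -/
def cnt : (n : ℕ) → Sy L Q n → Q → List L → ℕ
  | 0, x => fun q w => if q * (w.map cl).prod = x then 1 else 0
  | _ + 1, Sum.inl x => fun q w => if q * (w.map cl).prod = x then 1 else 0
  | n + 1, Sum.inr ((a, s), t) => cntI cl (cnt n t 1) a s

omit [Fintype L] [Fintype Q] in
theorem cnt_le : ∀ (n : ℕ) (x : Sy L Q n) (q : Q) (w : List L),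
    cnt cl n x q w ≤ (w.length + 1) ^ n := by
  intro n
  induction n with
  | zero =>
    intro x q w
    unfold cnt
    split_ifs <;> simp
  | succ n ih =>
    rintro (x | ⟨⟨a, s⟩, t⟩) q w
    · unfold cnt
      have : 1 ≤ (w.length + 1) ^ (n + 1) := Nat.one_le_pow _ _ (Nat.succ_pos _)
      split_ifs <;> omega
    · have key : ∀ (w : List L) (q : Q),
          cnt cl (n + 1) (Sum.inr ((a, s), t)) q w ≤ w.length * (w.length + 1) ^ n := by
        intro w
        induction w with
        | nil => intro q; exact Nat.zero_le _
        | cons s' w ihw =>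
          intro q
          show cnt cl (n + 1) (Sum.inr ((a, s), t)) (q * cl s') w +
            (if q = a ∧ s' = s then cnt cl n t 1 w else 0) ≤ _
          have h1 := ihw (q * cl s')
          have h2 : (if q = a ∧ s' = s then cnt cl n t 1 w else 0) ≤ (w.length + 1) ^ n := by
            split_ifs
            · exact ih t 1 w
            · exact Nat.zero_le _
          have h3 : (w.length + 1) ^ n ≤ (w.length + 1 + 1) ^ n :=
            Nat.pow_le_pow_left (Nat.le_succ _) n
          rw [List.length_cons]
          nlinarith
      refine (key w q).trans ?_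
      rw [pow_succ, mul_comm]
      exact Nat.mul_le_mul_left _ (Nat.le_succ _)

variable (X : L → M) (r : Q → M)

/-- The functions which are multiplied with the counts. -/
def Ph : (n : ℕ) → (M → A) → Sy L Q n → M → A
  | 0, φ, x, b => φ (r x * b)
  | _ + 1, φ, Sum.inl x, b => φ (r x * b)
  | n + 1, φ, Sum.inr ((a, s), t), b =>
    Ph n (fun u => φ (r a * X s * u) - φ (r (a * cl s) * u)) t b

variable {cl X r}

/-- **The expansion.** -/
theorem expand (hr1 : r 1 = 1) (hr : ∀ q s, Rl R E (r q * X s) (r (q * cl s))) :
    ∀ (n : ℕ) (w : List L) (φ : M → A) (q : Q) (b : M), Dg E (n + 1) φ → Iv R φ →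
      φ (r q * (w.map X).prod * b) = ∑ x : Sy L Q n, cnt cl n x q w • Ph cl X r n φ x b := by
  classical
  intro n
  induction n with
  | zero =>
    intro w
    induction w with
    | nil =>
      intro φ q b _ _
      show _ = ∑ x : Q, (if q * (List.map cl []).prod = x then 1 else 0) • φ (r x * b)
      simp [Finset.sum_ite_eq]
    | cons s w ihw =>
      intro φ q b hD hI
      have h1 := dg_rl hD hI (hr q s) ((w.map X).prod * b)
      have h2 := ihw φ (q * cl s) b hD hI
      rw [List.map_cons, List.prod_cons]
      have e1 : r q * (X s * (w.map X).prod) * b = r q * X s * ((w.map X).prod * b) := by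
        simp only [mul_assoc]
      have e2 : r (q * cl s) * (w.map X).prod * b = r (q * cl s) * ((w.map X).prod * b) := by
        simp only [mul_assoc]
      rw [e1, sub_eq_zero.1 h1, ← e2, h2]
      refine Finset.sum_congr rfl fun x _ => ?_
      congr 1
      show (if q * cl s * (w.map cl).prod = x then 1 else 0) =
        if q * ((s :: w).map cl).prod = x then 1 else 0
      rw [List.map_cons, List.prod_cons, mul_assoc]
  | succ n ih =>
    intro w
    induction w with
    | nil =>
      intro φ q b _ _
      show _ = ∑ x : Q ⊕ ((Q × L) × Sy L Q n), _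
      rw [Fintype.sum_sum_type]
      have e1 : ∀ x : Q, cnt cl (n + 1) (Sum.inl x) q ([] : List L) •
          Ph cl X r (n + 1) φ (Sum.inl x) b = if q = x then φ (r x * b) else 0 := by
        intro x
        show (if q * (List.map cl []).prod = x then 1 else 0) • φ (r x * b) = _
        simp
      have e2 : ∀ x : (Q × L) × Sy L Q n, cnt cl (n + 1) (Sum.inr x) q ([] : List L) •
          Ph cl X r (n + 1) φ (Sum.inr x) b = 0 := by
        intro x
        show 0 • _ = _
        rw [zero_smul]
      rw [Finset.sum_congr rfl (fun x _ => e1 x), Finset.sum_congr rfl (fun x _ => e2 x)]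
      simp
    | cons s w ihw =>
      intro φ q b hD hI
      have hD' := dg_rl hD hI (hr q s)
      have hI' : Iv R (fun u => φ (r q * X s * u) - φ (r (q * cl s) * u)) :=
        iv_sub (iv_left hI _) (iv_left hI _)
      have h1 := ih w _ 1 b hD' hI'
      have h2 := ihw φ (q * cl s) b hD hI
      rw [hr1, one_mul] at h1
      rw [List.map_cons, List.prod_cons]
      have e1 : r q * (X s * (w.map X).prod) * b = r q * X s * ((w.map X).prod * b) := by
        simp only [mul_assoc]
      have e2 : r (q * cl s) * (w.map X).prod * b = r (q * cl s) * ((w.map X).prod * b) := by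
        simp only [mul_assoc]
      rw [e2] at h2
      rw [e1, ← sub_add_cancel (φ (r q * X s * ((w.map X).prod * b)))
        (φ (r (q * cl s) * ((w.map X).prod * b))), h2]
      have h1' : φ (r q * X s * ((w.map X).prod * b)) -
          φ (r (q * cl s) * ((w.map X).prod * b)) = _ := h1
      rw [← h2, h1', h2]
      show _ + ∑ x : Q ⊕ ((Q × L) × Sy L Q n), _ = ∑ x : Q ⊕ ((Q × L) × Sy L Q n), _
      rw [Fintype.sum_sum_type, Fintype.sum_sum_type]
      have c1 : ∀ x : Q, cnt cl (n + 1) (Sum.inl x) q (s :: w) =
          cnt cl (n + 1) (Sum.inl x) (q * cl s) w := by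
        intro x
        show (if q * ((s :: w).map cl).prod = x then 1 else 0) =
          if q * cl s * (w.map cl).prod = x then 1 else 0
        rw [List.map_cons, List.prod_cons, mul_assoc]
      have c2 : ∀ x : (Q × L) × Sy L Q n, cnt cl (n + 1) (Sum.inr x) q (s :: w) =
          cnt cl (n + 1) (Sum.inr x) (q * cl s) w +
            if x.1 = (q, s) then cnt cl n x.2 1 w else 0 := by
        rintro ⟨⟨a, s'⟩, t⟩
        show cnt cl (n + 1) (Sum.inr ((a, s'), t)) (q * cl s) w +
          (if q = a ∧ s = s' then cnt cl n t 1 w else 0) = _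
        congr 1
        by_cases h : q = a ∧ s = s'
        · rw [if_pos h, if_pos (by rw [h.1, h.2])]
        · rw [if_neg h, if_neg]
          rintro h'
          have h'' : (a, s') = (q, s) := h'
          rw [Prod.mk.injEq] at h''
          exact h ⟨h''.1.symm, h''.2.symm⟩
      have c3 : ∑ x : (Q × L) × Sy L Q n, (if x.1 = (q, s) then cnt cl n x.2 1 w else 0) •
          Ph cl X r (n + 1) φ (Sum.inr x) b =
          ∑ t : Sy L Q n, cnt cl n t 1 w •
            Ph cl X r n (fun u => φ (r q * X s * u) - φ (r (q * cl s) * u)) t b := by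
        rw [Fintype.sum_prod_type]
        rw [Finset.sum_eq_single (q, s)]
        · refine Finset.sum_congr rfl fun t _ => ?_
          rw [if_pos rfl]
          rfl
        · intro y _ hy
          refine Finset.sum_eq_zero fun t _ => ?_
          rw [if_neg hy, zero_smul]
        · intro h
          exact absurd (Finset.mem_univ _) h
      have S1 : ∑ x : Q, cnt cl (n + 1) (Sum.inl x) q (s :: w) • Ph cl X r (n + 1) φ (Sum.inl x) b =
          ∑ x : Q, cnt cl (n + 1) (Sum.inl x) (q * cl s) w • Ph cl X r (n + 1) φ (Sum.inl x) b :=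
        Finset.sum_congr rfl fun x _ =>
          congrArg (fun y : ℕ => y • Ph cl X r (n + 1) φ (Sum.inl x) b) (c1 x)
      have S2 : ∑ x : (Q × L) × Sy L Q n, cnt cl (n + 1) (Sum.inr x) q (s :: w) •
            Ph cl X r (n + 1) φ (Sum.inr x) b =
          ∑ x : (Q × L) × Sy L Q n, cnt cl (n + 1) (Sum.inr x) (q * cl s) w •
            Ph cl X r (n + 1) φ (Sum.inr x) b +
          ∑ t : Sy L Q n, cnt cl n t 1 w •
            Ph cl X r n (fun u => φ (r q * X s * u) - φ (r (q * cl s) * u)) t b := by
        rw [← c3, ← Finset.sum_add_distrib]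
        exact Finset.sum_congr rfl fun x _ =>
          (congrArg (fun y : ℕ => y • Ph cl X r (n + 1) φ (Sum.inr x) b) (c2 x)).trans
            (add_smul _ _ _)
      refine Eq.trans ?_ (congrArg₂ (fun y z : A => y + z) S1.symm S2.symm)
      abel

/-- Two words with the same counts are not distinguished. -/
theorem same (hr1 : r 1 = 1) (hr : ∀ q s, Rl R E (r q * X s) (r (q * cl s))) {n : ℕ}
    {φ : M → A} (hD : Dg E (n + 1) φ) (hI : Iv R φ) {w w' : List L}
    (h : ∀ x : Sy L Q n, cnt cl n x 1 w = cnt cl n x 1 w') (b : M) :
    φ ((w.map X).prod * b) = φ ((w'.map X).prod * b) := by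
  have h1 := expand hr1 hr n w φ 1 b hD hI
  have h2 := expand hr1 hr n w' φ 1 b hD hI
  rw [hr1, one_mul] at h1 h2
  rw [h1, h2]
  exact Finset.sum_congr rfl fun x _ => by rw [h x]

theorem card_Sy : ∀ n : ℕ, Fintype.card (Sy L Q n) ≤
    (Fintype.card Q * (Fintype.card L + 1)) ^ (n + 1) := by
  intro n
  have hQ : 1 ≤ Fintype.card Q := Fintype.card_pos
  induction n with
  | zero =>
    show Fintype.card Q ≤ _
    rw [zero_add, pow_one]
    nlinarith
  | succ n ih =>
    have e : Fintype.card (Sy L Q (n + 1)) =
        Fintype.card Q + Fintype.card Q * Fintype.card L * Fintype.card (Sy L Q n) := by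
      have : Fintype.card (Sy L Q (n + 1)) = Fintype.card (Q ⊕ ((Q × L) × Sy L Q n)) :=
        Fintype.card_congr (Equiv.refl _)
      rw [this, Fintype.card_sum, Fintype.card_prod, Fintype.card_prod]
    rw [e]
    set a := Fintype.card Q
    set l := Fintype.card L
    set y := (a * (l + 1)) ^ (n + 1) with hy
    have hy1 : 1 ≤ y := Nat.one_le_pow _ _ (by positivity)
    rw [pow_succ, ← hy]
    calc a + a * l * Fintype.card (Sy L Q n) ≤ a * y + a * l * y := by
          have h1 : a ≤ a * y := Nat.le_mul_of_pos_right _ hy1
          have h2 : a * l * Fintype.card (Sy L Q n) ≤ a * l * y := Nat.mul_le_mul_left _ ih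
          omega
      _ = y * (a * (l + 1)) := by ring

end

end Pool.Agent.T6.H96.LB
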