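import Pool.Agent.T6.H96.LB.Cert

/-!
# Non-trivial knots which are not distinguished from the unknot
-/

set_option autoImplicit false

namespace Pool.Agent.T6.H96.LB

open Pool.Agent.H835R2 Pool.Agent.H835R2.Knot Pool.Agent.H835R2.Flat Pool.Agent.Y466.FT
open Pool.Agent.H838R2

section
variable {m n : ℕ} {A : Type} [AddCommGroup A] {v : Word → A}

theorem ext_same (hv : IsInvariant v) (hd : DegreeLE n v) {u u' : List (Lt m)}
    (h : ∀ x : Sy (Lt m) (Equiv.Perm (Fin m)) n, cnt clt n x 1 u = cnt clt n x 1 u')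
    (a b : Braid) :
    ext v (cb m (a ++ u.map lo ++ b)) = ext v (cb m (a ++ u'.map lo ++ b)) := by
  have h1 := same_io (k := Pool.Agent.Y466.FT.wd (births m) (fun _ : Fin 1 => deaths m)) (m := m)
    (by rw [wd_cb]; omega) (dg_phi _ _ hd) (iv_phi _ _ hv) h (io a) (io b)
  rw [← io_append, ← io_append, ← io_append, ← io_append] at h1
  unfold phi at h1
  rwa [← cb_eq, ← cb_eq] at h1

theorem ext_inv (hv : IsInvariant v) {w : Braid} (hw : ∀ l ∈ w, l.2 + 1 < m) (a b : Braid) :
    ext v (cb m (a ++ (w ++ inv w) ++ b)) = ext v (cb m (a ++ b)) := by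
  have h1 := (rr_inv (m := Pool.Agent.Y466.FT.wd (births m) (fun _ : Fin 1 => deaths m)) (w := w)
    (fun l hl => by rw [wd_cb]; have := hw l hl; omega)).eq (iv_phi _ _ hv) (io a) (io b)
  rw [← io_append, mul_one, ← io_append, ← io_append, ← io_append] at h1
  unfold phi at h1
  rwa [← cb_eq, ← cb_eq] at h1

theorem ext_depth (hv : IsInvariant v) (hd : DegreeLE n v) (hm : 3 ≤ m) {k : ℕ} (hk : n < 2 ^ k)
    (a b : Braid) : ext v (cb m (a ++ XX k ++ b)) = ext v (cb m (a ++ b)) := by
  have h1 := (dp_XX (m := Pool.Agent.Y466.FT.wd (births m) (fun _ : Fin 1 => deaths m))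
    (by rw [wd_cb]; omega) k).eq hk (dg_phi _ _ hd) (iv_phi _ _ hv) (io a) (io b)
  rw [← io_append, ← io_append, ← io_append] at h1
  unfold phi at h1
  rwa [← cb_eq, ← cb_eq] at h1

end

theorem iso_circle {m : ℕ} (hm : 1 ≤ m) : Isotopic (cb m (stair m)) circle := by
  have h := iso_stair (k := 1) [] (by simp) le_rfl m hm
  rw [List.append_nil] at h
  exact (h (closed_cb (stair_lt m))).2

theorem knot_circle : IsKnot circle := by decide

theorem knot_stair {m : ℕ} (hm : 1 ≤ m) : IsKnot (cb m (stair m)) :=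
  (isotopic_knot (iso_circle hm)).2 knot_circle

/-- The words. -/
def full (m k : ℕ) (u u' : List (Lt m)) : Braid :=
  stair m ++ XX k ++ u.map lo ++ inv (u'.map lo)

theorem full_lt {m : ℕ} (hm : 3 ≤ m) (k : ℕ) (u u' : List (Lt m)) :
    ∀ l ∈ full m k u u', l.2 + 1 < m := by
  intro l hl
  unfold full at hl
  simp only [List.mem_append] at hl
  rcases hl with ((hl | hl) | hl) | hl
  · exact stair_lt m l hl
  · exact lt_of_lt_of_le (XX_lt k l hl) hm
  · exact map_lo_lt le_rfl u l hl
  · exact inv_lt (map_lo_lt le_rfl u') l hl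

theorem ext_full {m n : ℕ} (hm : 3 ≤ m) {k : ℕ} (hk : n < 2 ^ k) {u u' : List (Lt m)}
    (h : ∀ x : Sy (Lt m) (Equiv.Perm (Fin m)) n, cnt clt n x 1 u = cnt clt n x 1 u')
    {A : Type} [AddCommGroup A] {v : Word → A} (hv : IsInvariant v) (hd : DegreeLE n v) :
    ext v (cb m (full m k u u')) = v circle := by
  unfold full
  rw [ext_same hv hd h (stair m ++ XX k) (inv (u'.map lo))]
  have h1 := ext_inv hv (map_lo_lt (m := m) le_rfl u') (stair m ++ XX k) []
  rw [List.append_nil, List.append_nil, ← List.append_assoc] at h1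
  rw [h1]
  have h2 := ext_depth hv hd hm hk (stair m) []
  rw [List.append_nil, List.append_nil] at h2
  rw [h2]
  have h3 := knot_stair (m := m) (by omega)
  unfold ext
  rw [if_pos h3]
  exact hv _ _ h3 (iso_circle (by omega))

theorem degree_const (n : ℕ) : DegreeLE n (fun _ : Word => (1 : ℤ)) := by
  intro D _ S _ hS
  have h1 : ∑ T ∈ S.powerset, (-1 : ℤ) ^ T.card = 0 := by
    rw [Finset.sum_powerset_neg_one_pow_card, if_neg]
    rintro rfl
    simp at hS
  simpa using h1

theorem J_stair {m : ℕ} (hm : 3 ≤ m) (k : ℕ) :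
    J (2 : ZMod 11) 6 (cb m (stair m ++ XX k)) = 6 := by
  have h1 : ∀ l ∈ stair m ++ XX k, l.2 + 1 < m := by
    intro l hl
    rcases List.mem_append.1 hl with hl | hl
    · exact stair_lt m l hl
    · exact lt_of_lt_of_le (XX_lt k l hl) hm
  have h2 := (iso_stair (XX k) (XX_lt k) (by norm_num) m hm (closed_cb h1)).2
  rw [J_iso hs11 h2, J_cb]
  · rw [TW_append, TW_XX, ← TW_append]
    exact val3
  · intro l hl
    rcases List.mem_append.1 hl with hl | hl
    · exact stair_lt 3 l hl
    · exact XX_lt k l hl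

theorem J_full {m : ℕ} (hm : 3 ≤ m) (k : ℕ) {u u' : List (Lt m)}
    (h : TW (2 : ZMod 11) 6 (u.map lo) = TW 2 6 (u'.map lo)) :
    J (2 : ZMod 11) 6 (cb m (full m k u u')) = 6 := by
  rw [J_cb _ _ (full_lt hm k u u')]
  have h1 : ∀ l ∈ stair m ++ XX k, l.2 + 1 < m := by
    intro l hl
    rcases List.mem_append.1 hl with hl | hl
    · exact stair_lt m l hl
    · exact lt_of_lt_of_le (XX_lt k l hl) hm
  have h2 := J_stair hm k
  rw [J_cb _ _ h1] at h2
  unfold full
  rw [TW_append, TW_append, h, TW_inv hs11]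
  exact h2

/-- The closure of the word is a knot, it is not trivial, and this is not seen by invariants of
order at most `n`. -/
theorem good {m n : ℕ} (hm : 3 ≤ m) {k : ℕ} (hk : n < 2 ^ k) {u u' : List (Lt m)}
    (h : ∀ x : Sy (Lt m) (Equiv.Perm (Fin m)) n, cnt clt n x 1 u = cnt clt n x 1 u')
    (hT : TW (2 : ZMod 11) 6 (u.map lo) = TW 2 6 (u'.map lo)) :
    IsKnot (cb m (full m k u u')) ∧ ¬ Isotopic (cb m (full m k u u')) circle ∧
      ∀ (A : Type) [AddCommGroup A] (v : Word → A), IsInvariant v → DegreeLE n v →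
        v (cb m (full m k u u')) = v circle := by
  have hk1 : IsKnot (cb m (full m k u u')) := by
    have h1 := ext_full hm hk h (v := fun _ : Word => (1 : ℤ)) (fun _ _ _ _ => rfl) (degree_const n)
    by_contra hne
    unfold ext at h1
    rw [if_neg hne] at h1
    exact absurd h1 (by norm_num)
  refine ⟨hk1, fun hi => ?_, fun A _ v hv hd => ?_⟩
  · have h1 := J_iso hs11 hi
    rw [J_full hm k hT, valc] at h1
    exact absurd h1 (by decide)
  · have h1 := ext_full hm hk h hv hd
    unfold ext at h1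
    rwa [if_pos hk1] at h1

end Pool.Agent.T6.H96.LB
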