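import Pool.Agent.T6.H96.LB.Cnt

/-!
# Orders of logarithmic size
-/

set_option autoImplicit false

namespace Pool.Agent.T6.H96.LB

open Pool.Agent.H835R2 Pool.Agent.H835R2.Knot Filter

theorem crossings_cb {m N : ℕ} (w : Fin N → Lt m) : crossings (cb m (toB w)) = N := by
  have h1 : ∀ k, crossings (births k) = 0 := by
    intro k
    unfold crossings births
    rw [List.countP_map, List.countP_eq_zero]
    intro a _
    simp [Piece.isCrossing]
  have h2 : ∀ k, crossings (deaths k) = 0 := by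
    intro k
    unfold crossings deaths
    rw [List.countP_reverse, List.countP_map, List.countP_eq_zero]
    intro a _
    simp [Piece.isCrossing]
  have h3 : ∀ w : Pool.Agent.Y466.FT.Braid, crossings (Pool.Agent.Y466.FT.draw w) = w.length := by
    intro w
    induction w with
    | nil => rfl
    | cons l w ih =>
      obtain ⟨b, i⟩ := l
      show crossings (Pool.Agent.Y466.FT.piece (b, i) :: Pool.Agent.Y466.FT.draw w) = _
      unfold crossings at ih ⊢
      rw [List.countP_cons, ih, List.length_cons]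
      cases b <;> rfl
  have h4 := h1 m
  have h5 := h2 m
  have h6 := h3 (toB w)
  unfold crossings at h4 h5 h6
  unfold crossings cb
  rw [List.countP_append, List.countP_append, h4, h5, h6, zero_add, add_zero]
  unfold toB
  rw [List.length_map, List.length_ofFn]

/-- Existence. -/
theorem exists_hidden {m C n N : ℕ} (hm : 3 ≤ m)
    (h : (2 * (m - 1)) ^ N ≤ N ^ (C ^ (n + 1)) * nHid m n N) :
    ∃ w : Fin N → Lt m, Hidden n (cb m (toB w)) := by
  classical
  by_contra hne
  push Not at hne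
  have : nHid m n N = 0 := by
    unfold nHid
    rw [Finset.card_eq_zero, Finset.filter_eq_empty_iff]
    exact fun w _ => hne w
  rw [this, mul_zero] at h
  have h2 : 0 < (2 * (m - 1)) ^ N := Nat.pow_pos (by omega)
  omega

theorem asy {m : ℕ} (hm : 3 ≤ m) {ε : ℝ} (hε : 0 < ε) : ∃ δ : ℝ, 0 < δ ∧ ∃ N0 : ℕ, ∀ N : ℕ,
    N0 ≤ N → N % 2 = (m - 1) % 2 → ∀ n : ℕ, (n : ℝ) ≤ δ * Real.log N →
      Real.exp (-(N : ℝ) ^ ε) * ((2 * (m - 1) : ℕ) : ℝ) ^ N ≤ nHid m n N := by
  obtain ⟨C, hC2, hC⟩ := count hm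
  have hC0 : (0 : ℝ) < C := by exact_mod_cast (by omega : 0 < C)
  have hC1 : (1 : ℝ) < C := by exact_mod_cast (by omega : 1 < C)
  have hL : 0 < Real.log C := Real.log_pos hC1
  set δ : ℝ := ε / (2 * Real.log C) with hδ
  have hδ0 : 0 < δ := by positivity
  have ev1 : ∀ᶠ x : ℝ in atTop, (C : ℝ) * Real.log x ≤ x ^ (ε / 2) := by
    have h := (isLittleO_log_rpow_atTop (half_pos hε)).bound (show (0 : ℝ) < 1 / C by positivity)
    filter_upwards [h, eventually_ge_atTop (1 : ℝ)] with x hx hx1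
    rw [Real.norm_of_nonneg (Real.log_nonneg hx1),
      Real.norm_of_nonneg (Real.rpow_nonneg (by linarith) _)] at hx
    calc (C : ℝ) * Real.log x ≤ C * (1 / C * x ^ (ε / 2)) := mul_le_mul_of_nonneg_left hx hC0.le
      _ = x ^ (ε / 2) := by field_simp
  have ev2 : ∀ᶠ x : ℝ in atTop, (C : ℝ) * (δ * Real.log x + 1) ^ 2 ≤ x := by
    have h := (Real.isLittleO_pow_log_id_atTop (n := 2)).bound
      (show (0 : ℝ) < 1 / (C * (δ + 1) ^ 2) by positivity)
    filter_upwards [h, eventually_ge_atTop (Real.exp 1)] with x hx hx1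
    have hx0 : 0 < x := lt_of_lt_of_le (Real.exp_pos 1) hx1
    have hl : 1 ≤ Real.log x := by
      rw [Real.le_log_iff_exp_le hx0]; exact hx1
    rw [Real.norm_of_nonneg (by positivity), id, Real.norm_of_nonneg hx0.le] at hx
    have h1 : (δ * Real.log x + 1) ^ 2 ≤ ((δ + 1) * Real.log x) ^ 2 := by
      apply pow_le_pow_left₀ (by positivity)
      nlinarith
    calc (C : ℝ) * (δ * Real.log x + 1) ^ 2 ≤ C * ((δ + 1) * Real.log x) ^ 2 :=
          mul_le_mul_of_nonneg_left h1 hC0.le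
      _ = (C * (δ + 1) ^ 2) * Real.log x ^ 2 := by ring
      _ ≤ (C * (δ + 1) ^ 2) * (1 / (C * (δ + 1) ^ 2) * x) :=
          mul_le_mul_of_nonneg_left hx (by positivity)
      _ = x := by field_simp
  obtain ⟨N0, hN0⟩ := eventually_atTop.1
    (tendsto_natCast_atTop_atTop.eventually ((ev1.and ev2).and (eventually_ge_atTop (1 : ℝ))))
  refine ⟨δ, hδ0, N0, fun N hN hpar n hn => ?_⟩
  obtain ⟨⟨h1, h2⟩, h3⟩ := hN0 N hN
  have hlog : 0 ≤ Real.log N := Real.log_nonneg h3
  have hNpos : (0 : ℝ) < N := by linarith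
  have hcond : C * (n + 1) ^ 2 ≤ N := by
    have : (C : ℝ) * ((n : ℝ) + 1) ^ 2 ≤ N := by
      refine le_trans (mul_le_mul_of_nonneg_left ?_ hC0.le) h2
      apply pow_le_pow_left₀ (by positivity)
      linarith
    exact_mod_cast this
  have key := hC n N hcond hpar
  have keyR : ((2 * (m - 1) : ℕ) : ℝ) ^ N ≤ (N : ℝ) ^ (C ^ (n + 1)) * nHid m n N := by
    exact_mod_cast key
  have e1 : (N : ℝ) ^ (C ^ (n + 1)) ≤ Real.exp ((N : ℝ) ^ ε) := by
    have : (N : ℝ) ^ (C ^ (n + 1)) = Real.exp ((C : ℝ) ^ (n + 1) * Real.log N) := by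
      rw [← Real.rpow_natCast, Real.rpow_def_of_pos hNpos]
      push_cast
      rw [mul_comm]
    rw [this]
    apply Real.exp_le_exp.2
    have e2 : (C : ℝ) ^ (n + 1) ≤ C * (N : ℝ) ^ (ε / 2) := by
      rw [pow_succ, mul_comm]
      refine mul_le_mul_of_nonneg_left ?_ hC0.le
      rw [← Real.rpow_natCast, Real.rpow_def_of_pos hC0, Real.rpow_def_of_pos hNpos]
      apply Real.exp_le_exp.2
      calc Real.log C * n ≤ Real.log C * (δ * Real.log N) := mul_le_mul_of_nonneg_left hn hL.le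
        _ = Real.log N * (ε / 2) := by rw [hδ]; field_simp
    calc (C : ℝ) ^ (n + 1) * Real.log N ≤ (C * (N : ℝ) ^ (ε / 2)) * Real.log N :=
          mul_le_mul_of_nonneg_right e2 hlog
      _ = (N : ℝ) ^ (ε / 2) * (C * Real.log N) := by ring
      _ ≤ (N : ℝ) ^ (ε / 2) * (N : ℝ) ^ (ε / 2) :=
          mul_le_mul_of_nonneg_left h1 (Real.rpow_nonneg hNpos.le _)
      _ = (N : ℝ) ^ ε := by rw [← Real.rpow_add hNpos, add_halves]
  calc Real.exp (-(N : ℝ) ^ ε) * ((2 * (m - 1) : ℕ) : ℝ) ^ N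
      ≤ Real.exp (-(N : ℝ) ^ ε) * (Real.exp ((N : ℝ) ^ ε) * nHid m n N) :=
        mul_le_mul_of_nonneg_left (keyR.trans (mul_le_mul_of_nonneg_right e1 (Nat.cast_nonneg _)))
          (Real.exp_pos _).le
    _ = nHid m n N := by rw [← mul_assoc, ← Real.exp_add, neg_add_cancel, Real.exp_zero, one_mul]

end Pool.Agent.T6.H96.LB
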