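import Pool.Agent.T6.H96.LB.Cls

/-!
# Closed braids as sliced diagrams; destabilisation
-/

set_option autoImplicit false

namespace Pool.Agent.T6.H96.LB

open Pool.Agent.H835R2 Pool.Agent.H835R2.Knot Pool.Agent.H835R2.Flat Pool.Agent.Y466.FT

/-- `m` nested maxima; the first `m` of the `2 m` strands below are directed downwards. -/
def births (m : ℕ) : Word := (List.range m).map fun i => Piece.birth i true

/-- `m` nested minima. -/
def deaths (m : ℕ) : Word := ((List.range m).map fun i => Piece.death i).reverse

/-- The closed braid. -/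
def cb (m : ℕ) (w : Braid) : Word := births m ++ draw w ++ deaths m

theorem births_succ (m : ℕ) : births (m + 1) = births m ++ [Piece.birth m true] := by
  unfold births
  rw [List.range_succ, List.map_append]
  rfl

theorem deaths_succ (m : ℕ) : deaths (m + 1) = [Piece.death m] ++ deaths m := by
  unfold deaths
  rw [List.range_succ, List.map_append, List.reverse_append]
  rfl

theorem wdt_births (m : ℕ) : wdt (births m) 0 = 2 * m := by
  induction m with
  | zero => rfl
  | succ m ih =>
    rw [births_succ, wdt_append, ih]
    rfl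

theorem cb_eq (m : ℕ) (w : Braid) :
    cb m w = plug (births m) (fun _ : Fin 1 => deaths m) piece (io w) := by
  unfold cb plug io
  rw [List.ofFn_succ, List.ofFn_zero, List.flatten_cons, List.flatten_nil, List.append_nil,
    Pi.mulSingle_eq_same]
  simp [draw]

theorem wd_cb (m : ℕ) (j : Fin 1) :
    Pool.Agent.Y466.FT.wd (births m) (fun _ : Fin 1 => deaths m) j = 2 * m := by
  unfold Pool.Agent.Y466.FT.wd
  have : (j : ℕ) = 0 := by omega
  rw [this, List.take_zero, List.flatten_nil, List.append_nil, wdt_births]

/-! ### Isotopies -/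

/-- Diagrams of links which are isotopic. -/
def Iso (D E : Word) : Prop := Closed D → Closed E ∧ Isotopic D E

theorem Iso.refl (D : Word) : Iso D D := fun h => ⟨h, Relation.EqvGen.refl _⟩

theorem Iso.trans {D E F : Word} (h : Iso D E) (h' : Iso E F) : Iso D F := fun hD => by
  obtain ⟨h1, h2⟩ := h hD
  obtain ⟨h3, h4⟩ := h' h1
  exact ⟨h3, Relation.EqvGen.trans _ _ _ h2 h4⟩

theorem iso_of {x l r y : Word} (m : Move l r ∨ Move r l)
    (hr : Knot.Fits r (Knot.run x Front.empty)) : Iso (x ++ l ++ y) (x ++ r ++ y) :=
  fun h => iso_step m h hr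

theorem run_n_births (k : ℕ) : (Knot.run (births k) Front.empty).n = 2 * k := by
  rw [run_n]; exact wdt_births k

theorem fits_births (k : ℕ) : Knot.Fits (births k) Front.empty := by
  induction k with
  | zero => trivial
  | succ k ih =>
    rw [births_succ, fits_append]
    refine ⟨ih, ?_, trivial⟩
    show k ≤ _
    rw [run_n_births]
    omega

theorem dir_births (k : ℕ) :
    (∀ p, p < k → (Knot.run (births k) Front.empty).dir p = true) ∧
    ∀ p, k ≤ p → p < 2 * k → (Knot.run (births k) Front.empty).dir p = false := by
  induction k with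
  | zero => exact ⟨fun p hp => absurd hp (by omega), fun p h1 h2 => absurd h2 (by omega)⟩
  | succ k ih =>
    have e : ∀ p, (Knot.run (births (k + 1)) Front.empty).dir p =
        if p < k then (Knot.run (births k) Front.empty).dir p else if p = k then true
          else if p = k + 1 then false else (Knot.run (births k) Front.empty).dir (p - 2) := by
      intro p
      rw [births_succ, run_append]
      rfl
    refine ⟨fun p hp => ?_, fun p h1 h2 => ?_⟩
    · rw [e]
      by_cases h : p < k
      · rw [if_pos h]; exact ih.1 p h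
      · rw [if_neg h, if_pos (by omega)]
    · rw [e, if_neg (by omega), if_neg (by omega)]
      by_cases h : p = k + 1
      · rw [if_pos h]
      · rw [if_neg h]
        exact ih.2 _ (by omega) (by omega)

theorem n_draw (x : Word) (w : Braid) (F : Front) :
    (Knot.run (x ++ draw w) F).n = (Knot.run x F).n := by
  rw [run_n, run_n, wdt_append, wdt_draw]

/-- a maximum at the place `k` slides below a braid word on the strands to the left -/
theorem iso_birth {x y : Word} {k : ℕ} (A : Braid) (hA : ∀ l ∈ A, l.2 + 1 < k)
    (hx : k ≤ (Knot.run x Front.empty).n) :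
    Iso (x ++ [Piece.birth k true] ++ (draw A ++ y)) (x ++ draw A ++ ([Piece.birth k true] ++ y)) := by
  induction A generalizing x with
  | nil => simpa [draw] using Iso.refl _
  | cons l A ih =>
    have h1 : l.2 + 2 ≤ k := by have := hA l List.mem_cons_self; omega
    have m1 : Move [piece l, Piece.birth k true] [Piece.birth k true, piece l] := by
      obtain ⟨b, i⟩ := l
      cases b
      · exact Move.exchange (.neg i) (.birth k true) h1
      · exact Move.exchange (.pos i) (.birth k true) h1
    have f1 : Knot.Fits [piece l, Piece.birth k true] (Knot.run x Front.empty) := by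
      obtain ⟨b, i⟩ := l
      have h1' : i + 2 ≤ k := h1
      cases b
      · refine ⟨?_, ?_, trivial⟩
        · show i + 2 ≤ _
          omega
        · exact hx
      · refine ⟨?_, ?_, trivial⟩
        · show i + 2 ≤ _
          omega
        · exact hx
    have s1 := iso_of (x := x) (y := draw A ++ y) (Or.inr m1) f1
    have s2 := ih (x := x ++ [piece l]) (fun l' h' => hA l' (List.mem_cons_of_mem _ h')) (by
      have := n_draw x [l] Front.empty
      rw [show x ++ [piece l] = x ++ draw [l] from rfl, this]
      exact hx)
    have e1 : x ++ [Piece.birth k true] ++ (draw (l :: A) ++ y) =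
        x ++ [Piece.birth k true, piece l] ++ (draw A ++ y) := by simp [draw]
    have e2 : x ++ [piece l, Piece.birth k true] ++ (draw A ++ y) =
        x ++ [piece l] ++ [Piece.birth k true] ++ (draw A ++ y) := by simp
    have e3 : x ++ [piece l] ++ draw A ++ ([Piece.birth k true] ++ y) =
        x ++ draw (l :: A) ++ ([Piece.birth k true] ++ y) := by simp [draw]
    rw [e1]
    refine s1.trans ?_
    rw [e2, ← e3]
    exact s2

/-- a minimum at the place `k` slides above a braid word on the strands to the left -/
theorem iso_death {x y : Word} {k : ℕ} (B : Braid) (hB : ∀ l ∈ B, l.2 + 1 < k)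
    (hx : k + 2 ≤ (Knot.run x Front.empty).n)
    (hd : (Knot.run x Front.empty).dir (k + 1) = !(Knot.run x Front.empty).dir k) :
    Iso (x ++ draw B ++ ([Piece.death k] ++ y)) (x ++ [Piece.death k] ++ (draw B ++ y)) := by
  induction B generalizing x with
  | nil => simpa [draw] using Iso.refl _
  | cons l B ih =>
    have h1 : l.2 + 2 ≤ k := by have := hB l List.mem_cons_self; omega
    have m1 : Move [piece l, Piece.death k] [Piece.death k, piece l] := by
      obtain ⟨b, i⟩ := l
      cases b
      · exact Move.exchange (.neg i) (.death k) h1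
      · exact Move.exchange (.pos i) (.death k) h1
    have f1 : Knot.Fits [Piece.death k, piece l] (Knot.run x Front.empty) := by
      obtain ⟨b, i⟩ := l
      have h1' : i + 2 ≤ k := h1
      have h2 : i + 2 ≤ (Knot.run x Front.empty).n - 2 := by omega
      cases b
      · exact ⟨⟨hx, hd⟩, h2, trivial⟩
      · exact ⟨⟨hx, hd⟩, h2, trivial⟩
    have s1 := iso_of (x := x) (y := draw B ++ y) (Or.inl m1) f1
    have hn : (Knot.run (x ++ [piece l]) Front.empty).n = (Knot.run x Front.empty).n :=
      n_draw x [l] Front.empty
    have hdir : ∀ p, k ≤ p → (Knot.run (x ++ [piece l]) Front.empty).dir p =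
        (Knot.run x Front.empty).dir p := by
      intro p hp
      rw [run_append]
      obtain ⟨b, i⟩ := l
      have h1' : i + 2 ≤ k := h1
      have e : sw i p = p := by unfold sw; rw [if_neg (by omega), if_neg (by omega)]
      cases b
      · show (Knot.run x Front.empty).dir (sw i p) = _
        rw [e]
      · show (Knot.run x Front.empty).dir (sw i p) = _
        rw [e]
    have s2 := ih (x := x ++ [piece l]) (fun l' h' => hB l' (List.mem_cons_of_mem _ h'))
      (by rw [hn]; exact hx) (by rw [hdir _ (by omega), hdir _ le_rfl]; exact hd)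
    have e1 : x ++ draw (l :: B) ++ ([Piece.death k] ++ y) =
        x ++ [piece l] ++ draw B ++ ([Piece.death k] ++ y) := by simp [draw]
    have e2 : x ++ [piece l] ++ [Piece.death k] ++ (draw B ++ y) =
        x ++ [piece l, Piece.death k] ++ (draw B ++ y) := by simp
    have e3 : x ++ [Piece.death k, piece l] ++ (draw B ++ y) =
        x ++ [Piece.death k] ++ (draw (l :: B) ++ y) := by simp [draw]
    rw [e1]
    refine s2.trans ?_
    rw [e2, ← e3]
    exact s1

theorem dir_draw {k : ℕ} (A : Braid) (hA : ∀ l ∈ A, l.2 + 1 < k) (F : Front)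
    (hF : ∀ p < k, F.dir p = true) :
    (∀ p < k, (Knot.run (draw A) F).dir p = true) ∧
      ∀ p, k ≤ p → (Knot.run (draw A) F).dir p = F.dir p := by
  induction A generalizing F with
  | nil => exact ⟨hF, fun p _ => rfl⟩
  | cons l A ih =>
    have h1 : l.2 + 2 ≤ k := by have := hA l List.mem_cons_self; omega
    have e : ∀ p, ((piece l).act F).dir p = F.dir (sw l.2 p) := by
      intro p
      obtain ⟨b, i⟩ := l
      cases b <;> rfl
    have h2 : ∀ p < k, ((piece l).act F).dir p = true := by
      intro p hp
      rw [e]
      apply hF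
      unfold sw
      split_ifs <;> omega
    obtain ⟨h3, h4⟩ := ih (fun l' h' => hA l' (List.mem_cons_of_mem _ h')) _ h2
    refine ⟨h3, fun p hp => ?_⟩
    have h5 := h4 p hp
    rw [e] at h5
    have e2 : sw l.2 p = p := by unfold sw; rw [if_neg (by omega), if_neg (by omega)]
    rw [e2] at h5
    exact h5

/-- Destabilisation. -/
theorem destab {k : ℕ} (hk : 1 ≤ k) (A B : Braid) (hA : ∀ l ∈ A, l.2 + 1 < k)
    (hB : ∀ l ∈ B, l.2 + 1 < k) :
    Iso (cb (k + 1) (A ++ [(true, k - 1)] ++ B)) (cb k (A ++ B)) := by
  obtain ⟨j, rfl⟩ : ∃ j, k = j + 1 := ⟨k - 1, by omega⟩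
  have hj : j + 1 - 1 = j := by omega
  rw [hj]
  set y : Word := [Piece.pos j] ++ draw B ++ ([Piece.death (j + 1)] ++ deaths (j + 1)) with hy
  have e1 : cb (j + 1 + 1) (A ++ [(true, j)] ++ B) =
      births (j + 1) ++ [Piece.birth (j + 1) true] ++ (draw A ++ y) := by
    unfold cb
    rw [births_succ (j + 1), deaths_succ (j + 1), hy]
    simp [draw, piece]
  rw [e1]
  have hn := run_n_births (j + 1)
  have hd := dir_births (j + 1)
  refine (iso_birth A hA (by rw [hn]; omega)).trans ?_
  set x : Word := births (j + 1) ++ draw A with hx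
  have hxn : (Knot.run x Front.empty).n = 2 * (j + 1) := by rw [hx, n_draw, hn]
  have hxd : (∀ p < j + 1, (Knot.run x Front.empty).dir p = true) ∧
      ∀ p, j + 1 ≤ p → (Knot.run x Front.empty).dir p =
        (Knot.run (births (j + 1)) Front.empty).dir p := by
    rw [hx, run_append]
    exact dir_draw A hA _ hd.1
  -- slide the minimum
  have e2 : x ++ ([Piece.birth (j + 1) true] ++ y) =
      x ++ [Piece.birth (j + 1) true, Piece.pos j] ++ draw B ++
        ([Piece.death (j + 1)] ++ deaths (j + 1)) := by
    rw [hy]; simp
  rw [e2]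
  have hd1 : ∀ p, (Knot.run (x ++ [Piece.birth (j + 1) true, Piece.pos j]) Front.empty).dir p =
      (if sw j p < j + 1 then (Knot.run x Front.empty).dir (sw j p) else if sw j p = j + 1 then true
        else if sw j p = j + 2 then false else (Knot.run x Front.empty).dir (sw j p - 2)) := by
    intro p
    rw [run_append]
    rfl
  refine (iso_death B hB ?_ ?_).trans ?_
  · have : (Knot.run (x ++ [Piece.birth (j + 1) true, Piece.pos j]) Front.empty).n =
        (Knot.run x Front.empty).n + 2 := by rw [run_append]; rfl
    rw [this, hxn]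
    omega
  · rw [hd1, hd1]
    have s1 : sw j (j + 1 + 1) = j + 2 := by unfold sw; rw [if_neg (by omega), if_neg (by omega)]
    have s2 : sw j (j + 1) = j := by unfold sw; rw [if_neg (by omega), if_pos rfl]
    rw [s1, s2, if_neg (by omega), if_neg (by omega), if_pos rfl, if_pos (by omega),
      hxd.1 j (by omega)]
    rfl
  -- the three pieces
  have e3 : x ++ [Piece.birth (j + 1) true, Piece.pos j] ++ [Piece.death (j + 1)] ++
      (draw B ++ deaths (j + 1)) =
      x ++ [Piece.birth (j + 1) true, Piece.pos j] ++
        ([Piece.death (j + 1)] ++ (draw B ++ deaths (j + 1))) := by simp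
  rw [e3]
  refine (iso_of (l := [Piece.birth (j + 1) true, Piece.pos j])
    (r := [Piece.birth j true, Piece.neg (j + 1)]) (Or.inr (Move.slideBirth₂ j true)) ?_).trans ?_
  · refine ⟨?_, ?_, trivial⟩
    · show j ≤ _
      rw [hxn]; omega
    · show j + 1 + 2 ≤ (Knot.run x Front.empty).n + 2
      rw [hxn]; omega
  have e4 : x ++ [Piece.birth j true, Piece.neg (j + 1)] ++
      ([Piece.death (j + 1)] ++ (draw B ++ deaths (j + 1))) =
      (x ++ [Piece.birth j true]) ++ [Piece.neg (j + 1), Piece.death (j + 1)] ++
        (draw B ++ deaths (j + 1)) := by simp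
  rw [e4]
  have hd2 : ∀ p, (Knot.run (x ++ [Piece.birth j true]) Front.empty).dir p =
      (if p < j then (Knot.run x Front.empty).dir p else if p = j then true
        else if p = j + 1 then false else (Knot.run x Front.empty).dir (p - 2)) := by
    intro p
    rw [run_append]
    rfl
  refine (iso_of (l := [Piece.neg (j + 1), Piece.death (j + 1)]) (r := [Piece.death (j + 1)])
    (Or.inl (Move.firstDeathNeg (j + 1))) ?_).trans ?_
  · refine ⟨⟨?_, ?_⟩, trivial⟩
    · have : (Knot.run (x ++ [Piece.birth j true]) Front.empty).n =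
        (Knot.run x Front.empty).n + 2 := by rw [run_append]; rfl
      rw [this, hxn]; omega
    · rw [hd2, hd2, if_neg (by omega), if_neg (by omega), if_neg (by omega), if_neg (by omega),
        if_neg (by omega), if_pos rfl]
      have : j + 1 + 1 - 2 = j := by omega
      rw [this, hxd.1 j (by omega)]
      rfl
  have e5 : x ++ [Piece.birth j true] ++ [Piece.death (j + 1)] ++ (draw B ++ deaths (j + 1)) =
      x ++ [Piece.birth j true, Piece.death (j + 1)] ++ (draw B ++ deaths (j + 1)) := by simp
  rw [e5]
  refine (iso_of (l := [Piece.birth j true, Piece.death (j + 1)]) (r := [])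
    (Or.inl (Move.zigzag₁ j true)) trivial).trans ?_
  have e6 : x ++ [] ++ (draw B ++ deaths (j + 1)) = cb (j + 1) (A ++ B) := by
    unfold cb
    rw [hx]
    simp [draw]
  rw [e6]
  exact Iso.refl _

/-- The braid word `σ_0 σ_1 ⋯ σ_{m-2}`. -/
def stair (m : ℕ) : Braid := (List.range (m - 1)).map fun i => (true, i)

theorem stair_succ {m : ℕ} (hm : 1 ≤ m) : stair (m + 1) = stair m ++ [(true, m - 1)] := by
  obtain ⟨j, rfl⟩ : ∃ j, m = j + 1 := ⟨m - 1, by omega⟩
  unfold stair
  rw [show j + 1 + 1 - 1 = j + 1 by omega, show j + 1 - 1 = j by omega, List.range_succ,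
    List.map_append]
  rfl

theorem stair_lt (m : ℕ) : ∀ l ∈ stair m, l.2 + 1 < m := by
  intro l hl
  obtain ⟨i, hi, rfl⟩ := List.mem_map.1 hl
  have := List.mem_range.1 hi
  show i + 1 < m
  omega

theorem iso_stair {k : ℕ} (X : Braid) (hX : ∀ l ∈ X, l.2 + 1 < k) (hk : 1 ≤ k) :
    ∀ m, k ≤ m → Iso (cb m (stair m ++ X)) (cb k (stair k ++ X)) := by
  intro m hm
  induction m, hm using Nat.le_induction with
  | base => exact Iso.refl _
  | succ m hm ih =>
    rw [stair_succ (by omega)]
    exact (destab (by omega) (stair m) X (stair_lt m) fun l hl => by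
      have := hX l hl
      omega).trans ih

theorem cb_one : cb 1 [] = circle := rfl

theorem fits_draw (w : Braid) (F : Front) (hw : ∀ l ∈ w, l.2 + 1 < F.n) :
    Knot.Fits (draw w) F := by
  induction w generalizing F with
  | nil => trivial
  | cons l w ih =>
    have h1 : l.2 + 2 ≤ F.n := by have := hw l List.mem_cons_self; omega
    have e : ((piece l).act F).n = F.n := by
      obtain ⟨b, i⟩ := l
      cases b <;> rfl
    have h2 : (piece l).Fits F := by
      obtain ⟨b, i⟩ := l
      cases b
      · exact h1
      · exact h1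
    refine ⟨h2, ih _ fun l' h' => ?_⟩
    rw [e]
    exact hw l' (List.mem_cons_of_mem _ h')

theorem fits_deaths (m : ℕ) (F : Front) (hn : F.n = 2 * m) (h1 : ∀ p < m, F.dir p = true)
    (h2 : ∀ p, m ≤ p → p < 2 * m → F.dir p = false) :
    Knot.Fits (deaths m) F ∧ (Knot.run (deaths m) F).n = 0 := by
  induction m generalizing F with
  | zero => exact ⟨trivial, by show F.n = 0; omega⟩
  | succ m ih =>
    rw [deaths_succ]
    have h3 := ih ((Piece.death m).act F) (by show F.n - 2 = _; omega)
      (fun p hp => by
        show F.dir (up m p) = true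
        unfold up; rw [if_pos hp]; exact h1 p (by omega))
      (fun p hp hp2 => by
        show F.dir (up m p) = false
        unfold up; rw [if_neg (by omega)]; exact h2 _ (by omega) (by omega))
    refine ⟨⟨⟨by omega, ?_⟩, h3.1⟩, h3.2⟩
    rw [h1 m (by omega), h2 (m + 1) (by omega) (by omega)]
    rfl

theorem closed_cb {m : ℕ} {w : Braid} (hw : ∀ l ∈ w, l.2 + 1 < m) : Closed (cb m w) := by
  have hd := dir_births m
  have hn := run_n_births m
  obtain ⟨d1, d2⟩ := dir_draw w hw (Knot.run (births m) Front.empty) hd.1
  have hn2 : (Knot.run (births m ++ draw w) Front.empty).n = 2 * m := by rw [n_draw, hn]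
  have h3 := fits_deaths m (Knot.run (births m ++ draw w) Front.empty) hn2
    (by rw [run_append]; exact d1)
    (fun p h1 h2 => by rw [run_append, d2 p h1]; exact hd.2 p h1 h2)
  refine ⟨?_, ?_⟩
  · unfold cb
    rw [fits_append, fits_append]
    refine ⟨⟨fits_births m, fits_draw w _ fun l hl => ?_⟩, h3.1⟩
    rw [hn]
    have := hw l hl
    omega
  · unfold cb
    rw [run_append]
    exact h3.2

end Pool.Agent.T6.H96.LB
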