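import Pool.Agent.T6.H96.LB.Loc

/-!
# Words of large depth which are seen by the state sum
-/

set_option autoImplicit false

namespace Pool.Agent.T6.H96.LB

open Pool.Agent.H835R2 Pool.Agent.H835R2.Knot Pool.Agent.Y466.FT
open Pool.Agent.H838R2
open Pool.Agent.H838R2.Jones (Bl Dl Xl Xl_apply circ Bl_apply Dl_apply zigA zigB BB BD DB DD)

section
variable {R : Type} [CommRing R]

/-- Coordinates with respect to the basis `1`, `U₀`, `U₁`, `U₀ U₁`, `U₁ U₀`. -/
structure V5 (R : Type) where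
  a : R
  b : R
  c : R
  d : R
  e : R
  deriving DecidableEq

/-- The element of the Temperley-Lieb algebra with the given coordinates, as an operator. -/
def tl (s s' : R) (v : V5 R) (f : Jones.F R) : Jones.F R :=
  v.a • f + v.b • Dl s 0 (Bl s' 0 f) + v.c • Dl s 1 (Bl s' 1 f) +
    v.d • Dl s 0 (Bl s' 0 (Dl s 1 (Bl s' 1 f))) + v.e • Dl s 1 (Bl s' 1 (Dl s 0 (Bl s' 0 f)))

/-- Multiplication by a crossing of the strands `0` and `1`. -/
def g0 (s s' : R) (k : R × R) (v : V5 R) : V5 R :=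
  ⟨k.1 * v.a, k.1 * v.b + k.2 * (v.a - (s + s') * v.b + v.e), k.1 * v.c,
    k.1 * v.d + k.2 * (v.c - (s + s') * v.d), k.1 * v.e⟩

/-- Multiplication by a crossing of the strands `1` and `2`. -/
def g1 (s s' : R) (k : R × R) (v : V5 R) : V5 R :=
  ⟨k.1 * v.a, k.1 * v.b, k.1 * v.c + k.2 * (v.a - (s + s') * v.c + v.d), k.1 * v.d,
    k.1 * v.e + k.2 * (v.b - (s + s') * v.e)⟩

/-- The coordinates of a word. -/
def crd (s s' : R) : Braid → V5 R
  | [] => ⟨1, 0, 0, 0, 0⟩
  | l :: w => if l.2 = 0 then g0 s s' (co s s' l.1) (crd s s' w) else g1 s s' (co s s' l.1) (crd s s' w)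

theorem tl_g0 {s s' : R} (hs : s * s' = 1) (k : R × R) (v : V5 R) (f : Jones.F R) :
    Xl s s' k 0 (tl s s' v f) = tl s s' (g0 s s' k v) f := by
  have u1 : ∀ g, Dl s 0 (Bl s' 0 (Dl s 1 (Bl s' 1 (Dl s 0 g)))) = Dl s 0 g := by
    intro g
    have h1 := zigA (s := s) (s' := s') hs 0 (Bl s' 1 (Dl s 0 g))
    have h2 := zigB (s := s) (s' := s') hs 0 g
    rw [zero_add] at h1 h2
    rw [h1, h2]
  unfold tl g0
  simp only [Xl_apply, map_add, map_smul, circ, u1]
  module

theorem tl_g1 {s s' : R} (hs : s * s' = 1) (k : R × R) (v : V5 R) (f : Jones.F R) :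
    Xl s s' k 1 (tl s s' v f) = tl s s' (g1 s s' k v) f := by
  have u1 : ∀ g, Dl s 1 (Bl s' 1 (Dl s 0 (Bl s' 0 (Dl s 1 g)))) = Dl s 1 g := by
    intro g
    have h1 := zigB (s := s) (s' := s') hs 0 (Bl s' 0 (Dl s 1 g))
    have h2 := zigA (s := s) (s' := s') hs 0 g
    rw [zero_add] at h1 h2
    rw [h1, h2]
  unfold tl g1
  simp only [Xl_apply, map_add, map_smul, circ, u1]
  module

theorem TW_tl {s s' : R} (hs : s * s' = 1) (w : Braid) (hw : ∀ l ∈ w, l.2 + 1 < 3)
    (f : Jones.F R) : TW s s' w f = tl s s' (crd s s' w) f := by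
  induction w with
  | nil =>
    show f = _
    unfold tl crd
    simp only
    module
  | cons l w ih =>
    have h1 := hw l List.mem_cons_self
    show Xl s s' _ _ (TW s s' w f) = _
    rw [ih fun l' h' => hw l' (List.mem_cons_of_mem _ h')]
    obtain ⟨b, i⟩ := l
    have h1' : i + 1 < 3 := h1
    rcases Nat.lt_or_ge i 1 with h | h
    · obtain rfl : i = 0 := by omega
      exact tl_g0 hs _ _ f
    · obtain rfl : i = 1 := by omega
      exact tl_g1 hs _ _ f

end

/-! ### the words -/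

/-- `σ₁⁴ σ₀⁻⁴` -/
def wx : Braid := [(true, 1), (true, 1), (true, 1), (true, 1), (false, 0), (false, 0), (false, 0),
  (false, 0)]
/-- `σ₁` -/
def wz : Braid := [(true, 1)]
/-- `σ₀` -/
def wz' : Braid := [(true, 0)]

/-- The commutator of `x` and its conjugate `z⁻¹ x z`, conjugated by `z'`. -/
def nx (x : Braid) : Braid :=
  inv wz' ++ (x ++ (inv wz ++ x ++ wz) ++ inv x ++ inv (inv wz ++ x ++ wz)) ++ wz'

/-- The words of large depth. -/
def XX : ℕ → Braid
  | 0 => wx
  | k + 1 => nx (XX k)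

theorem cert : crd (2 : ZMod 11) 6 (nx wx) = crd (2 : ZMod 11) 6 wx := by decide

theorem hs11 : (2 : ZMod 11) * 6 = 1 := by decide

theorem val3 : OB (2 : ZMod 11) 6 3 (TW 2 6 (stair 3 ++ wx) (OD 2 6 3 fun _ => 1))
    (fun _ => false) = 6 := by
  have hw : ∀ l ∈ stair 3 ++ wx, l.2 + 1 < 3 := by decide
  rw [TW_tl hs11 _ hw]
  unfold tl
  rw [map_add, map_add, map_add, map_add, map_smul, map_smul, map_smul, map_smul, map_smul]
  simp only [Pi.add_apply, Pi.smul_apply, smul_eq_mul]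
  have h1 : OB (2 : ZMod 11) 6 3 (OD 2 6 3 fun _ => 1) (fun _ => false) = 5 := by decide
  have h2 : OB (2 : ZMod 11) 6 3 (Dl 2 0 (Bl 6 0 (OD 2 6 3 fun _ => 1))) (fun _ => false) = 9 := by
    decide
  have h3 : OB (2 : ZMod 11) 6 3 (Dl 2 1 (Bl 6 1 (OD 2 6 3 fun _ => 1))) (fun _ => false) = 9 := by
    decide
  have h4 : OB (2 : ZMod 11) 6 3 (Dl 2 0 (Bl 6 0 (Dl 2 1 (Bl 6 1 (OD 2 6 3 fun _ => 1)))))
      (fun _ => false) = 3 := by decide
  have h5 : OB (2 : ZMod 11) 6 3 (Dl 2 1 (Bl 6 1 (Dl 2 0 (Bl 6 0 (OD 2 6 3 fun _ => 1)))))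
      (fun _ => false) = 3 := by decide
  rw [h1, h2, h3, h4, h5]
  decide

theorem valc : J (2 : ZMod 11) 6 circle = 3 := by decide

theorem nx_lt {x : Braid} (h : ∀ l ∈ x, l.2 + 1 < 3) : ∀ l ∈ nx x, l.2 + 1 < 3 := by
  have hz : ∀ l ∈ wz, l.2 + 1 < 3 := by decide
  have hz' : ∀ l ∈ wz', l.2 + 1 < 3 := by decide
  have h1 : ∀ l ∈ inv wz ++ x ++ wz, l.2 + 1 < 3 := by
    intro l hl
    rw [List.mem_append, List.mem_append] at hl
    rcases hl with (hl | hl) | hl
    · exact inv_lt hz l hl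
    · exact h l hl
    · exact hz l hl
  intro l hl
  unfold nx at hl
  simp only [List.mem_append] at hl
  rcases hl with (hl | (((hl | hl) | hl) | hl)) | hl
  · exact inv_lt hz' l hl
  · exact h l hl
  · exact h1 l (by simpa only [List.mem_append] using hl)
  · exact inv_lt h l hl
  · exact inv_lt h1 l hl
  · exact hz' l hl

theorem XX_lt (n : ℕ) : ∀ l ∈ XX n, l.2 + 1 < 3 := by
  induction n with
  | zero => decide
  | succ n ih => exact nx_lt ih

theorem TW_ext {R : Type} [CommRing R] {s s' : R} {u w : Braid}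
    (h : ∀ f, TW s s' u f = TW s s' w f) : TW s s' u = TW s s' w := LinearMap.ext h

theorem TW_nx {R : Type} [CommRing R] {s s' : R} (hs : s * s' = 1) {x x' : Braid}
    (h : TW s s' x = TW s s' x') : TW s s' (nx x) = TW s s' (nx x') := by
  have hi := TW_inv_congr hs h
  have h1 : TW s s' (inv wz ++ x ++ wz) = TW s s' (inv wz ++ x' ++ wz) := by
    refine TW_ext fun f => ?_
    simp only [TW_append, h]
  have h2 := TW_inv_congr hs h1
  have e : ∀ (w y : Braid) (f : Jones.F R),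
      TW s s' (inv wz' ++ (w ++ y ++ inv w ++ inv y) ++ wz') f =
      TW s s' (inv wz') (TW s s' w (TW s s' y (TW s s' (inv w) (TW s s' (inv y)
        (TW s s' wz' f))))) := by
    intro w y f
    simp only [TW_append]
  refine TW_ext fun f => ?_
  unfold nx
  rw [e, e, h, h1, h2, hi]

theorem TW_XX (n : ℕ) : TW (2 : ZMod 11) 6 (XX n) = TW 2 6 wx := by
  induction n with
  | zero => rfl
  | succ n ih =>
    show TW _ _ (nx (XX n)) = _
    rw [TW_nx hs11 ih]
    refine TW_ext fun f => ?_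
    rw [TW_tl hs11 (nx wx) (nx_lt (show ∀ l ∈ wx, l.2 + 1 < 3 from XX_lt 0)),
      TW_tl hs11 wx (XX_lt 0), cert]

theorem len_XX (n : ℕ) : (XX n).length + 2 = 10 * 4 ^ n := by
  induction n with
  | zero => rfl
  | succ n ih =>
    have e : (XX (n + 1)).length = 4 * (XX n).length + 6 := by
      show (nx (XX n)).length = _
      unfold nx
      simp [inv, wz, wz']
      ring
    rw [e, pow_succ]
    omega

theorem pure_wx : IsPure wx := by
  unfold IsPure perm wx
  simp

/-- The words of large depth. -/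
theorem dp_XX {m : Fin 1 → ℕ} (hm : 3 ≤ m 0) (n : ℕ) : Dp (RS m) (ES m) (2 ^ n) (io (XX n)) := by
  have lt' : ∀ {w : Braid}, (∀ l ∈ w, l.2 + 1 < 3) → ∀ l ∈ w, l.2 + 1 < m 0 :=
    fun h l hl => lt_of_lt_of_le (h l hl) hm
  have hz : ∀ l ∈ wz, l.2 + 1 < 3 := by decide
  have hz' : ∀ l ∈ wz', l.2 + 1 < 3 := by decide
  induction n with
  | zero => exact dp_pu (pu (m := m) (j := 0) (lt' (XX_lt 0)) pure_wx)
  | succ n ih =>
    have hX := lt' (XX_lt n)
    have h1 : Dp (RS m) (ES m) (2 ^ n) (io (inv wz ++ XX n ++ wz)) := by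
      rw [io_append, io_append]
      exact dp_conj ih (rr_inv' (lt' hz))
    have hY : ∀ l ∈ inv wz ++ XX n ++ wz, l.2 + 1 < m 0 := by
      intro l hl
      rw [List.mem_append, List.mem_append] at hl
      rcases hl with (hl | hl) | hl
      · exact lt' (inv_lt hz) l hl
      · exact hX l hl
      · exact lt' hz l hl
    have h2 := dp_comm ih h1 (rr_inv hX) (rr_inv hY)
    have h3 := dp_conj (z := io wz') (z' := io (inv wz')) h2 (rr_inv' (lt' hz'))
    rw [pow_succ, mul_two]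
    show Dp _ _ _ (io (nx (XX n)))
    unfold nx
    rw [io_append, io_append, io_append, io_append (XX n ++ _), io_append (XX n)]
    exact h3

end Pool.Agent.T6.H96.LB
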