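import Pool.Agent.T6.H96.LB.Dep

/-!
# The class of a word: its permutation
-/

set_option autoImplicit false

namespace Pool.Agent.T6.H96.LB

open Pool.Agent.Y466.FT

/-- The letters `σ_i^{±1}` of the braid group on `m` strands. -/
abbrev Lt (m : ℕ) : Type := Bool × Fin (m - 1)

/-- The letter as a letter of a braid word. -/
def lo {m : ℕ} (l : Lt m) : Bool × ℕ := (l.1, l.2.1)

theorem lo_lt {m : ℕ} (l : Lt m) : (lo l).2 + 1 < m := by
  have := l.2.2
  show l.2.1 + 1 < m
  omega

/-- The transposition of a letter. -/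
def clt {m : ℕ} (l : Lt m) : Equiv.Perm (Fin m) :=
  Equiv.swap ⟨l.2.1, by have := l.2.2; omega⟩ ⟨l.2.1 + 1, by have := l.2.2; omega⟩

/-- Permutations of `Fin m` as permutations of `ℕ`. -/
def ex (m : ℕ) : Equiv.Perm (Fin m) →* Equiv.Perm ℕ :=
  Equiv.Perm.extendDomainHom (Fin.equivSubtype (n := m))

theorem ex_swap {m : ℕ} (a b : Fin m) : ex m (Equiv.swap a b) = Equiv.swap (a : ℕ) (b : ℕ) := by
  ext x
  show ((Equiv.swap a b).extendDomain Fin.equivSubtype) x = _
  by_cases hx : x < m
  · have h1 := Equiv.Perm.extendDomain_apply_subtype (Equiv.swap a b) (Fin.equivSubtype (n := m)) hx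
    rw [h1]
    show ((Equiv.swap a b (⟨x, hx⟩ : Fin m) : Fin m) : ℕ) = _
    rw [Equiv.swap_apply_def, Equiv.swap_apply_def]
    have e1 : ((⟨x, hx⟩ : Fin m) = a) ↔ x = (a : ℕ) := Fin.ext_iff
    have e2 : ((⟨x, hx⟩ : Fin m) = b) ↔ x = (b : ℕ) := Fin.ext_iff
    simp only [e1, e2]
    split_ifs <;> rfl
  · have h1 := Equiv.Perm.extendDomain_apply_not_subtype (Equiv.swap a b)
      (Fin.equivSubtype (n := m)) hx
    rw [h1, Equiv.swap_apply_def]
    have h2 : x ≠ (a : ℕ) := fun h => hx (h ▸ a.2)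
    have h3 : x ≠ (b : ℕ) := fun h => hx (h ▸ b.2)
    rw [if_neg h2, if_neg h3]

theorem perm_lo {m : ℕ} (w : List (Lt m)) : perm (w.map lo) = ex m ((w.map clt).prod) := by
  unfold perm
  rw [map_list_prod, List.map_map, List.map_map]
  congr 1
  refine List.map_congr_left fun l _ => ?_
  show Equiv.swap l.2.1 (l.2.1 + 1) = ex m (clt l)
  unfold clt
  rw [ex_swap]

theorem exists_word {m : ℕ} (q : Equiv.Perm (Fin m)) : ∃ w : List (Lt m), (w.map clt).prod = q := by
  rcases m with _ | m
  · exact ⟨[], Subsingleton.elim _ _⟩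
  · have h : q ∈ Submonoid.closure (Set.range fun i : Fin m => Equiv.swap i.castSucc i.succ) := by
      rw [Equiv.Perm.mclosure_swap_castSucc_succ]
      exact Submonoid.mem_top q
    refine Submonoid.closure_induction (fun x hx => ?_) ⟨[], rfl⟩ (fun x y _ _ hx hy => ?_) h
    · obtain ⟨i, rfl⟩ := hx
      refine ⟨[(true, ⟨i.1, by have := i.2; omega⟩)], ?_⟩
      rw [List.map_cons, List.map_nil, List.prod_singleton]
      rfl
    · obtain ⟨w, rfl⟩ := hx
      obtain ⟨w', rfl⟩ := hy
      exact ⟨w ++ w', by rw [List.map_append, List.prod_append]⟩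

open Classical in
/-- A word for every permutation. -/
noncomputable def rw' {m : ℕ} (q : Equiv.Perm (Fin m)) : List (Lt m) :=
  if q = 1 then [] else (exists_word q).choose

theorem rw'_one {m : ℕ} : rw' (1 : Equiv.Perm (Fin m)) = [] := if_pos rfl

theorem rw'_prod {m : ℕ} (q : Equiv.Perm (Fin m)) : ((rw' q).map clt).prod = q := by
  unfold rw'
  split_ifs with h
  · rw [h]; rfl
  · exact (exists_word q).choose_spec

theorem map_lo_lt {m k : ℕ} (h : m ≤ k) (w : List (Lt m)) : ∀ l ∈ w.map lo, l.2 + 1 < k := by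
  intro l hl
  obtain ⟨l', _, rfl⟩ := List.mem_map.1 hl
  exact lt_of_lt_of_le (lo_lt l') h

theorem rel_step {m : ℕ} {n : Fin 1 → ℕ} (h : m ≤ n 0) (q : Equiv.Perm (Fin m)) (s : Lt m) :
    Rl (RS n) (ES n) (io ((rw' q).map lo) * io [lo s]) (io ((rw' (q * clt s)).map lo)) := by
  rw [← io_append]
  have e : (rw' q).map lo ++ [lo s] = (rw' q ++ [s]).map lo := by rw [List.map_append]; rfl
  rw [e]
  refine rl_perm (map_lo_lt h _) (map_lo_lt h _) ?_
  rw [perm_lo, perm_lo, List.map_append, List.prod_append, rw'_prod, rw'_prod, List.map_cons,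
    List.map_nil, List.prod_singleton]

theorem io_prod {m : ℕ} (w : List (Lt m)) :
    (w.map fun s => io [lo s]).prod = io (w.map lo) := by
  induction w with
  | nil => exact io_nil.symm
  | cons s w ih =>
    rw [List.map_cons, List.prod_cons, ih, List.map_cons, ← io_append]
    rfl

/-- Words with the same counts are not distinguished. -/
theorem same_io {m : ℕ} {k : Fin 1 → ℕ} (h : m ≤ k 0) {n : ℕ} {A : Type} [AddCommGroup A]
    {φ : MM → A} (hD : Dg (ES k) (n + 1) φ) (hI : Iv (RS k) φ) {w w' : List (Lt m)}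
    (hw : ∀ x : Sy (Lt m) (Equiv.Perm (Fin m)) n, cnt clt n x 1 w = cnt clt n x 1 w') (a b : MM) :
    φ (a * io (w.map lo) * b) = φ (a * io (w'.map lo) * b) := by
  have := same (M := MM) (cl := clt) (X := fun s : Lt m => io [lo s])
    (r := fun q : Equiv.Perm (Fin m) => io ((rw' q).map lo)) (E := ES k) (R := RS k)
    (by show io ((rw' (1 : Equiv.Perm (Fin m))).map lo) = 1
        rw [rw'_one]; exact io_nil) (fun q s => rel_step h q s) (hD.trans a) (iv_left hI a) hw b
  rw [io_prod, io_prod] at this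
  simpa only [mul_assoc] using this

end Pool.Agent.T6.H96.LB
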