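import Pool.Agent.T6.H96.LB.App

/-!
# Counting
-/

set_option autoImplicit false

namespace Pool.Agent.T6.H96.LB

open Pool.Agent.H835R2 Pool.Agent.H835R2.Knot Pool.Agent.Y466.FT Finset

/-- The number of pairs with the same value. -/
theorem pairs {U D : Type} [Fintype U] [Fintype D] [DecidableEq D] (f : U → D) :
    (Fintype.card U) ^ 2 ≤ Fintype.card D *
      ((univ : Finset (U × U)).filter fun p => f p.1 = f p.2).card := by
  have h1 : Fintype.card U = ∑ d : D, (univ.filter fun u => f u = d).card := by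
    rw [← Finset.card_univ]
    exact Finset.card_eq_sum_card_fiberwise (fun u _ => mem_univ (f u))
  have h2 : ((univ : Finset (U × U)).filter fun p => f p.1 = f p.2).card =
      ∑ d : D, (univ.filter fun u => f u = d).card ^ 2 := by
    rw [Finset.card_eq_sum_card_fiberwise (t := univ) (f := fun p : U × U => f p.1)
      (fun u _ => mem_univ _)]
    refine sum_congr rfl fun d _ => ?_
    rw [sq, ← card_product]
    congr 1
    ext ⟨u, u'⟩
    simp only [mem_filter, mem_univ, true_and, mem_product]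
    constructor
    · rintro ⟨h, h'⟩; exact ⟨h', by rw [← h, h']⟩
    · rintro ⟨h, h'⟩; exact ⟨by rw [h, h'], h⟩
  rw [h1, h2]
  have := sq_sum_le_card_mul_sum_sq (s := (univ : Finset D))
    (f := fun d => (univ.filter fun u => f u = d).card)
  simpa using this

theorem exists_fn {α : Type} (l : List α) {N : ℕ} (h : l.length = N) :
    ∃ w : Fin N → α, List.ofFn w = l := by
  subst h
  exact ⟨l.get, List.ofFn_get l⟩

/-- The braid word. -/
def toB {m N : ℕ} (w : Fin N → Lt m) : Braid := (List.ofFn w).map lo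

/-- Non-trivial knots which are not separated from the unknot by Vassiliev invariants of order at
most `n` (with values in any abelian group). -/
def Hidden (n : ℕ) (D : Word) : Prop :=
  IsKnot D ∧ ¬ Isotopic D circle ∧
    ∀ (A : Type) [AddCommGroup A] (v : Word → A), IsInvariant v → DegreeLE n v → v D = v circle

open Classical in
/-- The number of words of length `N` with this property. -/
noncomputable def nHid (m n N : ℕ) : ℕ :=
  (univ.filter fun w : Fin N → Lt m => Hidden n (cb m (toB w))).card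

theorem exists_toL {m : ℕ} (w : Braid) (hw : ∀ l ∈ w, l.2 + 1 < m) :
    ∃ u : List (Lt m), u.map lo = w := by
  induction w with
  | nil => exact ⟨[], rfl⟩
  | cons l w ih =>
    obtain ⟨u, hu⟩ := ih fun l' h' => hw l' (List.mem_cons_of_mem _ h')
    have := hw l List.mem_cons_self
    exact ⟨(l.1, ⟨l.2, by omega⟩) :: u, by rw [List.map_cons, hu]; rfl⟩

theorem lo_inj {m : ℕ} : Function.Injective (lo (m := m)) := by
  rintro ⟨b, i⟩ ⟨c, j⟩ h
  have h1 : b = c := congrArg Prod.fst h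
  have h2 : (i : ℕ) = j := congrArg Prod.snd h
  rw [h1, Fin.ext h2]

theorem map_lo_inj {m : ℕ} {u u' : List (Lt m)} (h : u.map lo = u'.map lo) : u = u' :=
  List.map_injective_iff.2 lo_inj h

theorem inv_inj {w w' : Braid} (h : inv w = inv w') : w = w' := by
  rw [← inv_inv' w, h, inv_inv']

theorem len_inv (w : Braid) : (inv w).length = w.length := by simp [inv]

theorem len_stair (m : ℕ) : (stair m).length = m - 1 := by simp [stair]

/-- The data of a word. -/
abbrev Dat (m n M : ℕ) : Type :=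
  (Sy (Lt m) (Equiv.Perm (Fin m)) n → Fin ((M + 1) ^ n + 1)) ×
    ((Fin m → Bool) → (Fin m → Bool) → ZMod 11)

noncomputable instance dS (m n : ℕ) : DecidableEq (Sy (Lt m) (Equiv.Perm (Fin m)) n) :=
  Classical.decEq _

theorem card_Dat (m n M : ℕ) : Fintype.card (Dat m n M) =
    ((M + 1) ^ n + 1) ^ Fintype.card (Sy (Lt m) (Equiv.Perm (Fin m)) n) *
      (11 ^ (2 ^ m)) ^ (2 ^ m) := by
  rw [Fintype.card_prod, Fintype.card_fun, Fintype.card_fin]
  congr 1
  rw [Fintype.card_fun, Fintype.card_fun, ZMod.card, Fintype.card_fun, Fintype.card_bool,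
    Fintype.card_fin]

theorem pairs_le {m n k M N : ℕ} (hm : 3 ≤ m) (hk : n < 2 ^ k)
    (hN : N = (m - 1) + (XX k).length + 2 * M) :
    (2 * (m - 1)) ^ (2 * M) ≤ Fintype.card (Dat m n M) * nHid m n N := by
  classical
  have hker := fun u : Fin M → Lt m => exists_ker (2 : ZMod 11) 6 ((List.ofFn u).map lo)
    (map_lo_lt (m := m) le_rfl (List.ofFn u))
  choose K hK using hker
  let f : (Fin M → Lt m) → Dat m n M := fun u =>
    (fun x => ⟨cnt clt n x 1 (List.ofFn u), Nat.lt_succ_of_le (by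
      have := cnt_le (L := Lt m) (Q := Equiv.Perm (Fin m)) clt n x 1 (List.ofFn u)
      rwa [List.length_ofFn] at this)⟩, K u)
  have h1 := pairs f
  have h2 : Fintype.card (Fin M → Lt m) = (2 * (m - 1)) ^ M := by
    rw [Fintype.card_fun, Fintype.card_fin, Fintype.card_prod, Fintype.card_bool, Fintype.card_fin]
  rw [h2, ← pow_mul, mul_comm M 2] at h1
  refine h1.trans (Nat.mul_le_mul_left _ ?_)
  -- the words
  have hex : ∀ p : (Fin M → Lt m) × (Fin M → Lt m), ∃ w : Fin N → Lt m,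
      toB w = full m k (List.ofFn p.1) (List.ofFn p.2) := by
    intro p
    obtain ⟨l, hl⟩ := exists_toL (full m k (List.ofFn p.1) (List.ofFn p.2)) (full_lt hm k _ _)
    have hlen : l.length = N := by
      have := congrArg List.length hl
      rw [List.length_map] at this
      rw [this, hN]
      unfold full
      rw [List.length_append, List.length_append, List.length_append, List.length_map, len_inv,
        List.length_map, List.length_ofFn, List.length_ofFn, len_stair]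
      omega
    obtain ⟨w, hw⟩ := exists_fn l hlen
    exact ⟨w, by unfold toB; rw [hw, hl]⟩
  choose g hg using hex
  unfold nHid
  refine Finset.card_le_card_of_injOn g ?_ ?_
  · intro p hp
    have hp' : f p.1 = f p.2 := (Finset.mem_filter.1 hp).2
    refine Finset.mem_coe.2 (Finset.mem_filter.2 ⟨mem_univ _, ?_⟩)
    rw [hg]
    refine good hm hk (fun x => ?_) ?_
    · have := congrFun (congrArg Prod.fst hp') x
      exact congrArg Fin.val this
    · have h3 : K p.1 = K p.2 := congrArg Prod.snd hp'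
      refine TW_ext fun f => ?_
      rw [hK, hK, h3]
  · intro p _ p' _ h
    have h3 : full m k (List.ofFn p.1) (List.ofFn p.2) =
        full m k (List.ofFn p'.1) (List.ofFn p'.2) := by rw [← hg, ← hg, h]
    unfold full at h3
    have h4 := List.append_inj h3 (by
      rw [List.length_append, List.length_append, List.length_append, List.length_append,
        List.length_map, List.length_map, List.length_ofFn, List.length_ofFn])
    have h5 := List.append_cancel_left h4.1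
    have h6 := List.ofFn_injective (map_lo_inj h5)
    have h7 := List.ofFn_injective (map_lo_inj (inv_inj h4.2))
    exact Prod.ext h6 h7

theorem exists_k (n : ℕ) : ∃ k : ℕ, n < 2 ^ k ∧ 4 ^ k ≤ 4 * (n + 1) ^ 2 := by
  refine ⟨Nat.log 2 (n + 1) + 1, ?_, ?_⟩
  · have := Nat.lt_pow_succ_log_self (b := 2) (by norm_num) (n + 1)
    omega
  · have h1 := Nat.pow_log_le_self 2 (x := n + 1) (by omega)
    have h2 : (4 : ℕ) ^ (Nat.log 2 (n + 1) + 1) = 4 * (2 ^ Nat.log 2 (n + 1)) ^ 2 := by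
      rw [pow_succ, ← pow_mul, mul_comm (Nat.log 2 (n + 1)) 2, pow_mul]
      norm_num
      ring
    rw [h2]
    exact Nat.mul_le_mul_left _ (Nat.pow_le_pow_left h1 2)

theorem expo {m n B : ℕ} : m + 40 * (n + 1) ^ 2 + (n + 1) * B ^ (n + 1) + 4 ^ m ≤
    (m + 160 + 2 * B + 4 ^ m) ^ (n + 1) := by
  have a1 : n + 1 ≤ 2 ^ (n + 1) := Nat.lt_two_pow_self.le
  have a2 : (n + 1) ^ 2 ≤ 4 ^ (n + 1) := by
    calc (n + 1) ^ 2 ≤ (2 ^ (n + 1)) ^ 2 := Nat.pow_le_pow_left a1 2
      _ = 4 ^ (n + 1) := by rw [← pow_mul, mul_comm, pow_mul]; norm_num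
  have a3 : 40 * (n + 1) ^ 2 ≤ 160 ^ (n + 1) := by
    calc 40 * (n + 1) ^ 2 ≤ 40 ^ (n + 1) * 4 ^ (n + 1) :=
          Nat.mul_le_mul (Nat.le_self_pow (by omega) 40) a2
      _ = 160 ^ (n + 1) := by rw [← mul_pow]; norm_num
  have a4 : (n + 1) * B ^ (n + 1) ≤ (2 * B) ^ (n + 1) := by
    rw [mul_pow]
    exact Nat.mul_le_mul_right _ a1
  have a5 : m ≤ m ^ (n + 1) := Nat.le_self_pow (by omega) m
  have a6 : 4 ^ m ≤ (4 ^ m) ^ (n + 1) := Nat.le_self_pow (by omega) _
  have a7 : ∀ a b : ℕ, a ^ (n + 1) + b ^ (n + 1) ≤ (a + b) ^ (n + 1) := fun a b =>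
    pow_add_pow_le (Nat.zero_le _) (Nat.zero_le _) (by omega)
  calc m + 40 * (n + 1) ^ 2 + (n + 1) * B ^ (n + 1) + 4 ^ m
      ≤ m ^ (n + 1) + 160 ^ (n + 1) + (2 * B) ^ (n + 1) + (4 ^ m) ^ (n + 1) := by omega
    _ ≤ (m + 160) ^ (n + 1) + (2 * B) ^ (n + 1) + (4 ^ m) ^ (n + 1) := by
        have := a7 m 160; omega
    _ ≤ (m + 160 + 2 * B) ^ (n + 1) + (4 ^ m) ^ (n + 1) := by
        have := a7 (m + 160) (2 * B); omega
    _ ≤ _ := a7 _ _

/-- **The lower bound.** -/
theorem count {m : ℕ} (hm : 3 ≤ m) : ∃ C : ℕ, 2 ≤ C ∧ ∀ n N : ℕ, C * (n + 1) ^ 2 ≤ N →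
    N % 2 = (m - 1) % 2 → (2 * (m - 1)) ^ N ≤ N ^ (C ^ (n + 1)) * nHid m n N := by
  obtain ⟨B, hB⟩ : ∃ B : ℕ, B = Nat.factorial m * (2 * (m - 1) + 1) := ⟨_, rfl⟩
  have h40 : 0 < 4 ^ m := by positivity
  refine ⟨m + 160 + 2 * B + 4 ^ m, by omega, fun n N hN hpar => ?_⟩
  obtain ⟨k, hk, hk2⟩ := exists_k n
  have hX := len_XX k
  have hn1 : 1 ≤ (n + 1) ^ 2 := Nat.one_le_pow _ _ (by omega)
  have hNm : m + 160 + 4 ^ m ≤ N := by
    calc m + 160 + 4 ^ m ≤ (m + 160 + 2 * B + 4 ^ m) * 1 := by omega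
      _ ≤ (m + 160 + 2 * B + 4 ^ m) * (n + 1) ^ 2 := Nat.mul_le_mul_left _ hn1
      _ ≤ N := hN
  have hm4 : m < 4 ^ m := Nat.lt_pow_self (by norm_num)
  have hNX : m + 40 * (n + 1) ^ 2 ≤ N := by
    calc m + 40 * (n + 1) ^ 2 ≤ m * (n + 1) ^ 2 + 40 * (n + 1) ^ 2 := by nlinarith
      _ ≤ (m + 160 + 2 * B + 4 ^ m) * (n + 1) ^ 2 := by nlinarith
      _ ≤ N := hN
  have hP : m - 1 + (XX k).length ≤ m + 40 * (n + 1) ^ 2 := by omega
  have hev : (XX k).length % 2 = 0 := by omega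
  obtain ⟨M, hM⟩ : ∃ M, N = (m - 1) + (XX k).length + 2 * M :=
    ⟨(N - ((m - 1) + (XX k).length)) / 2, by omega⟩
  have h1 := pairs_le hm hk hM
  rw [card_Dat] at h1
  have hS := card_Sy (L := Lt m) (Q := Equiv.Perm (Fin m)) n
  have hc1 : Fintype.card (Equiv.Perm (Fin m)) = Nat.factorial m := by
    rw [Fintype.card_perm, Fintype.card_fin]
  have hc2 : Fintype.card (Lt m) = 2 * (m - 1) := by
    rw [Fintype.card_prod, Fintype.card_bool, Fintype.card_fin]
  rw [hc1, hc2, ← hB] at hS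
  have e1 : (M + 1) ^ n + 1 ≤ N ^ (n + 1) := by
    have h2 : (M + 1) ^ n ≤ N ^ n := Nat.pow_le_pow_left (by omega) n
    have h3 : 1 ≤ N ^ n := Nat.one_le_pow _ _ (by omega)
    calc (M + 1) ^ n + 1 ≤ N ^ n * 2 := by omega
      _ ≤ N ^ n * N := Nat.mul_le_mul_left _ (by omega)
      _ = N ^ (n + 1) := (pow_succ _ _).symm
  have e2 : ((M + 1) ^ n + 1) ^ Fintype.card (Sy (Lt m) (Equiv.Perm (Fin m)) n) ≤
      N ^ ((n + 1) * B ^ (n + 1)) := by
    calc _ ≤ (N ^ (n + 1)) ^ Fintype.card (Sy (Lt m) (Equiv.Perm (Fin m)) n) :=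
          Nat.pow_le_pow_left e1 _
      _ ≤ (N ^ (n + 1)) ^ (B ^ (n + 1)) :=
          Nat.pow_le_pow_right (Nat.one_le_pow _ _ (by omega)) hS
      _ = _ := by rw [← pow_mul]
  have e3 : ((11 : ℕ) ^ (2 ^ m)) ^ (2 ^ m) ≤ N ^ (4 ^ m) := by
    rw [← pow_mul, ← mul_pow]
    exact Nat.pow_le_pow_left (by omega) _
  have e4 : (2 * (m - 1)) ^ (m - 1 + (XX k).length) ≤ N ^ (m + 40 * (n + 1) ^ 2) :=
    (Nat.pow_le_pow_left (by omega) _).trans (Nat.pow_le_pow_right (by omega) hP)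
  calc (2 * (m - 1)) ^ N = (2 * (m - 1)) ^ (m - 1 + (XX k).length) * (2 * (m - 1)) ^ (2 * M) := by
        rw [← pow_add, ← hM]
    _ ≤ N ^ (m + 40 * (n + 1) ^ 2) * ((N ^ ((n + 1) * B ^ (n + 1)) * N ^ (4 ^ m)) * nHid m n N) :=
        Nat.mul_le_mul e4 (h1.trans (Nat.mul_le_mul_right _ (Nat.mul_le_mul e2 e3)))
    _ = N ^ (m + 40 * (n + 1) ^ 2 + (n + 1) * B ^ (n + 1) + 4 ^ m) * nHid m n N := by
        rw [pow_add, pow_add]; ring
    _ ≤ _ := Nat.mul_le_mul_right _ (Nat.pow_le_pow_right (by omega) expo)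

end Pool.Agent.T6.H96.LB
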