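import Pool.Agent.T6.H96.LB.Abs
import Pool.Agent.Y466.FT.Base

/-!
# Elements of depth `j`: the difference operator lowers the degree of a function by `j`
-/

set_option autoImplicit false

namespace Pool.Agent.T6.H96.LB

open Pool.Agent.Y466.FT

section
variable {M : Type} [Monoid M] {E R : Set (M × M)}

/-- `p` and `p'` are related by every congruence which contains `R`. -/
def Rr (R : Set (M × M)) (p p' : M) : Prop := ∀ c : Con M, (∀ r ∈ R, c r.1 r.2) → c p p'

theorem Rr.rl {p p' : M} (h : Rr R p p') : Rl R E p p' := fun c hR _ => h c hR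

theorem Rr.symm {p p' : M} (h : Rr R p p') : Rr R p' p := fun c hR => c.symm (h c hR)

theorem Rr.trans {p q r : M} (h : Rr R p q) (h' : Rr R q r) : Rr R p r :=
  fun c hR => c.trans (h c hR) (h' c hR)

theorem Rr.mul {p p' q q' : M} (h : Rr R p p') (h' : Rr R q q') : Rr R (p * q) (p' * q') :=
  fun c hR => c.mul (h c hR) (h' c hR)

theorem Rr.refl (p : M) : Rr R p p := fun c _ => c.refl p

theorem Rr.eq {A : Type} {φ : M → A} (hφ : Iv R φ) {p p' : M} (h : Rr R p p') (a b : M) :
    φ (a * p * b) = φ (a * p' * b) :=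
  h (cphi φ) (fun r hr => hφ r hr) a b

theorem Rr.eq' {A : Type} {φ : M → A} (hφ : Iv R φ) {p p' : M} (h : Rr R p p') (b : M) :
    φ (p * b) = φ (p' * b) := by
  have := h.eq hφ 1 b
  rwa [one_mul, one_mul] at this

/-- `p` has depth at least `j`. -/
def Dp (R E : Set (M × M)) (j : ℕ) (p : M) : Prop :=
  ∀ (A : Type) [AddCommGroup A] (n : ℕ) (φ : M → A), Dg E (n + j) φ → Iv R φ → Dg E n (Tr p φ)

theorem dp_pu {w : M} (h : Pu R E w) : Dp R E 1 w := fun A _ n φ hD hI => hD.tr hI h

/-- Commutators. -/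
theorem dp_comm {i j : ℕ} {p y p' y' : M} (hp : Dp R E i p) (hy : Dp R E j y)
    (h1 : Rr R (p * p') 1) (h2 : Rr R (y * y') 1) : Dp R E (i + j) (p * y * p' * y') := by
  intro A _ n φ hD hI
  have hD1 : Dg E (n + j + i) φ := by rw [show n + j + i = n + (i + j) by omega]; exact hD
  have hD2 : Dg E (n + i + j) φ := by rw [show n + i + j = n + (i + j) by omega]; exact hD
  have a1 := hy A n (Tr p φ) (hp A (n + j) φ hD1 hI) (hI.tr p)
  have a2 := hp A n (Tr y φ) (hy A (n + i) φ hD2 hI) (hI.tr y)
  refine ((a1.sub a2).trans (p' * y')).congr fun u => ?_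
  have e1 : φ u = φ (y * p * (p' * y' * u)) := by
    have b1 := (Rr.mul (Rr.mul (Rr.refl (R := R) y) h1) (Rr.refl y')).eq' hI u
    rw [mul_one] at b1
    have b2 := h2.eq' hI u
    rw [one_mul] at b2
    rw [← b2, ← b1]
    congr 1
    simp only [mul_assoc]
  unfold Tr
  rw [e1]
  simp only [mul_assoc]
  abel

/-- Conjugates. -/
theorem dp_conj {j : ℕ} {p z z' : M} (hp : Dp R E j p) (h1 : Rr R (z' * z) 1) :
    Dp R E j (z' * p * z) := by
  intro A _ n φ hD hI
  have a1 := hp A n (fun u => φ (z' * u)) (hD.trans z') (iv_left hI z')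
  refine (a1.trans z).congr fun u => ?_
  have b1 := h1.eq' hI u
  rw [one_mul] at b1
  show φ (z' * (p * (z * u))) - φ (z' * (z * u)) = φ (z' * p * z * u) - φ u
  rw [← b1]
  simp only [mul_assoc]

theorem dg_succ {A : Type} [AddCommGroup A] {n : ℕ} {φ : M → A} (h : Dg E n φ) :
    Dg E (n + 1) φ := by
  induction n generalizing φ with
  | zero =>
    intro e _ a p
    show φ _ - φ _ = 0
    rw [h, h, sub_zero]
  | succ n ih => exact fun e he a => ih (h e he a)

theorem dg_mono {A : Type} [AddCommGroup A] {n k : ℕ} {φ : M → A} (h : Dg E n φ) (hk : n ≤ k) :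
    Dg E k φ := by
  induction k, hk using Nat.le_induction with
  | base => exact h
  | succ k _ ih => exact dg_succ ih

/-- Elements of depth larger than `n` are not seen by functions of degree at most `n`. -/
theorem Dp.eq {n j : ℕ} {p : M} (hp : Dp R E j p) (hj : n < j) {A : Type} [AddCommGroup A]
    {φ : M → A} (hD : Dg E (n + 1) φ) (hI : Iv R φ) (a b : M) : φ (a * p * b) = φ (a * b) := by
  have h := hp A 0 (fun u => φ (a * u)) (by rw [zero_add]; exact (dg_mono hD hj).trans a)
    (iv_left hI a) b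
  have h' : φ (a * (p * b)) - φ (a * b) = 0 := h
  rw [← mul_assoc] at h'
  exact sub_eq_zero.1 h'

end

/-! ### Braid words -/

/-- The place. -/
abbrev MM : Type := Fin 1 → FreeMonoid (Bool × ℕ)

/-- The element given by a braid word. -/
def io (w : Braid) : MM := Pi.mulSingle 0 (FreeMonoid.ofList w)

theorem io_append (w w' : Braid) : io (w ++ w') = io w * io w' := by
  unfold io
  rw [FreeMonoid.ofList_append, Pi.mulSingle_mul]

theorem io_nil : io [] = 1 := by
  unfold io
  exact Pi.mulSingle_one _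

variable {m : Fin 1 → ℕ}

theorem inv_append (w w' : Braid) : inv (w ++ w') = inv w' ++ inv w := by
  simp [inv]

theorem inv_inv' (w : Braid) : inv (inv w) = w := by
  unfold inv
  rw [List.map_reverse, List.reverse_reverse, List.map_map]
  conv_rhs => rw [← List.map_id w]
  refine List.map_congr_left fun l _ => ?_
  simp

theorem inv_lt {k : ℕ} {w : Braid} (h : ∀ l ∈ w, l.2 + 1 < k) : ∀ l ∈ inv w, l.2 + 1 < k := by
  intro l hl
  unfold inv at hl
  rw [List.mem_reverse] at hl
  obtain ⟨l', h1, rfl⟩ := List.mem_map.1 hl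
  exact h l' h1

theorem rr_inv {w : Braid} (hw : ∀ l ∈ w, l.2 + 1 < m 0) : Rr (RS m) (io w * io (inv w)) 1 := by
  intro c hR
  rw [← io_append]
  have := cl_inv hR hw
  rw [← map_one (Pool.Agent.Y466.FT.cl c 0), cl_eq, Pi.mulSingle_one] at this
  exact this

theorem rr_inv' {w : Braid} (hw : ∀ l ∈ w, l.2 + 1 < m 0) :
    Rr (RS m) (io (inv w) * io w) 1 := by
  have := rr_inv (m := m) (inv_lt hw)
  rwa [inv_inv'] at this

theorem perm_append (w w' : Braid) : perm (w ++ w') = perm w * perm w' := by
  unfold perm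
  rw [List.map_append, List.prod_append]

theorem perm_inv (w : Braid) : perm (inv w) = (perm w)⁻¹ := by
  unfold perm inv
  rw [List.map_reverse, List.prod_inv_reverse, List.map_map]
  congr 2
  rw [List.map_map]
  refine List.map_congr_left fun l _ => ?_
  simp

/-- Braid words with the same permutation are related. -/
theorem rl_perm {w w' : Braid} (hw : ∀ l ∈ w, l.2 + 1 < m 0) (hw' : ∀ l ∈ w', l.2 + 1 < m 0)
    (h : perm w = perm w') : Rl (RS m) (ES m) (io w) (io w') := by
  intro c hR hE
  have h1 : c (io (inv w') * io w') 1 := rr_inv' hw' c hR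
  have h2 : c (io (w ++ inv w')) 1 := by
    refine pu (m := m) (j := 0) ?_ ?_ c hR hE
    · intro l hl
      rcases List.mem_append.1 hl with hl | hl
      · exact hw l hl
      · exact inv_lt hw' l hl
    · unfold IsPure
      rw [perm_append, perm_inv, h, mul_inv_cancel]
  have h3 : c (io w * (io (inv w') * io w')) (io w * 1) := c.mul (c.refl _) h1
  have h4 : c (io (w ++ inv w') * io w') (1 * io w') := c.mul h2 (c.refl _)
  rw [io_append, mul_assoc, one_mul] at h4
  rw [mul_one] at h3
  exact c.trans (c.symm h3) h4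

end Pool.Agent.T6.H96.LB
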