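import Pool.Agent.T6.H96.LB.Bra
import Pool.Agent.H838R2.SL.T6Inv

/-!
# A state sum of closed braids
-/

set_option autoImplicit false

namespace Pool.Agent.T6.H96.LB

open Pool.Agent.H835R2 Pool.Agent.H835R2.Knot Pool.Agent.Y466.FT
open Pool.Agent.H838R2
open Pool.Agent.H838R2.SL (opD opD_append opD_cons dir_run move_op toO)
open Pool.Agent.H838R2.Jones (Bl Dl Xl Xl_apply cP cN circ dirW opP Bl_apply Dl_apply)

section
variable {R : Type} [CommRing R] (s s' : R)

/-- The state sum. -/
def J (D : Word) : R := opD s s' D Front.empty.dir (fun _ => 1) (fun _ => false)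

variable {s s'}

theorem J_step (hs : s * s' = 1) {D E : Word} (h : Step D E) : J s s' D = J s s' E := by
  obtain ⟨x, l, r, y, hm, hc, hc'⟩ := h
  have h1 := hc.1
  rw [fits_append, fits_append] at h1
  unfold J
  rw [opD_append, opD_append, opD_append, opD_append, run_append, run_append]
  obtain ⟨h2, h3⟩ := move_op hs hm (Knot.run x Front.empty) h1.1.2
    (opD s s' y (Knot.run l (Knot.run x Front.empty)).dir fun _ => 1)
  rw [h2, dir_run l, dir_run r, h3]

theorem J_iso (hs : s * s' = 1) {D E : Word} (h : Isotopic D E) : J s s' D = J s s' E := by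
  induction h with
  | rel _ _ h => exact J_step hs h
  | refl _ => rfl
  | symm _ _ _ ih => exact ih.symm
  | trans _ _ _ _ _ ih ih' => exact ih.trans ih'

variable (s s')

/-- The coefficients of a letter. -/
def co (b : Bool) : R × R := if b then (-s, -s ^ 2) else (-s', -s' ^ 2)

/-- The operator of a braid word. -/
def TW : Braid → Jones.F R →ₗ[R] Jones.F R
  | [] => LinearMap.id
  | l :: w => (Xl s s' (co s s' l.1) l.2).comp (TW w)

theorem TW_append (u w : Braid) (f : Jones.F R) : TW s s' (u ++ w) f = TW s s' u (TW s s' w f) := by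
  induction u with
  | nil => rfl
  | cons l u ih =>
    show Xl s s' _ _ (TW s s' (u ++ w) f) = Xl s s' _ _ _
    rw [ih]

theorem opD_draw {k : ℕ} (w : Braid) (A : Front) (hw : ∀ l ∈ w, l.2 + 1 < k)
    (hA : ∀ p < k, A.dir p = true) (f : Jones.F R) :
    opD s s' (draw w) A.dir f = TW s s' w f := by
  induction w generalizing A with
  | nil => rfl
  | cons l w ih =>
    show opD s s' (piece l :: draw w) A.dir f = _
    have h1 : l.2 + 2 ≤ k := by have := hw l List.mem_cons_self; omega
    have e : ∀ p, ((piece l).act A).dir p = A.dir (sw l.2 p) := by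
      intro p
      obtain ⟨b, i⟩ := l
      cases b <;> rfl
    rw [opD_cons, ih ((piece l).act A) (fun l' h' => hw l' (List.mem_cons_of_mem _ h'))]
    · obtain ⟨b, i⟩ := l
      have h1' : i + 2 ≤ k := h1
      have e2 : (A.dir i == A.dir (i + 1)) = true := by
        rw [hA i (by omega), hA (i + 1) (by omega)]; rfl
      cases b
      · show Xl s s' (cN s s' (A.dir i == A.dir (i + 1))) i _ = _
        rw [e2]; rfl
      · show Xl s s' (cP s s' (A.dir i == A.dir (i + 1))) i _ = _
        rw [e2]; rfl
    · intro p hp
      rw [e]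
      apply hA
      unfold sw
      split_ifs <;> omega

/-- The operator of `m` maxima. -/
def OB (m : ℕ) : Jones.F R →ₗ[R] Jones.F R := opD s s' (births m) Front.empty.dir

/-- The operator of `m` minima. -/
def OD (m : ℕ) : Jones.F R →ₗ[R] Jones.F R := opD s s' (deaths m) Front.empty.dir

theorem opD_deaths (m : ℕ) (d : ℕ → Bool) : opD s s' (deaths m) d = OD s s' m := by
  have key : ∀ m (d d' : ℕ → Bool), opD s s' (deaths m) d = opD s s' (deaths m) d' := by
    intro m
    induction m with
    | zero => intro d d'; rfl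
    | succ m ih =>
      intro d d'
      rw [deaths_succ]
      refine LinearMap.ext fun f => ?_
      show Dl s m (opD s s' (deaths m) _ f) = Dl s m (opD s s' (deaths m) _ f)
      rw [ih (Jones.nxt (toO (Piece.death m)) d) (Jones.nxt (toO (Piece.death m)) d')]
  exact key m d _

theorem J_cb {m : ℕ} {w : Braid} (hw : ∀ l ∈ w, l.2 + 1 < m) :
    J s s' (cb m w) = OB s s' m (TW s s' w (OD s s' m fun _ => 1)) (fun _ => false) := by
  unfold J cb
  rw [List.append_assoc, opD_append, opD_append, opD_deaths,
    opD_draw s s' w _ hw (dir_births m).1]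
  rfl

end

end Pool.Agent.T6.H96.LB
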