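import Pool.Agent.T6.H96.LB.Jon

/-!
# The operators of the braid words on `m` strands form a finite set
-/

set_option autoImplicit false

namespace Pool.Agent.T6.H96.LB

open Pool.Agent.H835R2 Pool.Agent.H835R2.Knot Pool.Agent.Y466.FT
open Pool.Agent.H838R2 Finset
open Pool.Agent.H838R2.Jones (Bl Dl Xl Xl_apply cP cN circ dirW opP Bl_apply Dl_apply)
open Pool.Agent.Helper454.Wh (insD delD)

section
variable {R : Type} [CommRing R] {m : ℕ}

/-- The spins `τ` on the first `m` strands, and `σ` on the others. -/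
def ov (τ : Fin m → Bool) (σ : ℕ → Bool) : ℕ → Bool := fun p => if h : p < m then τ ⟨p, h⟩ else σ p

/-- The spins on the first `m` strands. -/
def rs (m : ℕ) (σ : ℕ → Bool) : Fin m → Bool := fun p => σ p

theorem rs_ov (τ : Fin m → Bool) (σ : ℕ → Bool) : rs m (ov τ σ) = τ := by
  funext p
  unfold rs ov
  rw [dif_pos p.2]

theorem ov_ov (τ τ' : Fin m → Bool) (σ : ℕ → Bool) : ov τ' (ov τ σ) = ov τ' σ := by
  funext p
  unfold ov
  split_ifs <;> rfl

theorem ov_rs (σ : ℕ → Bool) : ov (rs m σ) σ = σ := by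
  funext p
  unfold ov rs
  split_ifs <;> rfl

/-- The operator with the kernel `c`. -/
def ker (c : (Fin m → Bool) → (Fin m → Bool) → R) (f : Jones.F R) : Jones.F R :=
  fun σ => ∑ τ, c (rs m σ) τ * f (ov τ σ)

theorem ker_comp (c c' : (Fin m → Bool) → (Fin m → Bool) → R) (f : Jones.F R) :
    ker c (ker c' f) = ker (fun σ τ => ∑ ρ, c σ ρ * c' ρ τ) f := by
  funext σ
  unfold ker
  simp only [rs_ov, ov_ov, mul_sum, sum_mul]
  rw [sum_comm]
  exact sum_congr rfl fun τ _ => sum_congr rfl fun ρ _ => by ring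

theorem ker_id (f : Jones.F R) :
    ker (m := m) (fun σ τ => if τ = σ then 1 else 0) f = f := by
  funext σ
  unfold ker
  simp only [ite_mul, one_mul, zero_mul, sum_ite_eq', mem_univ, if_true, ov_rs]

/-- The spins at the places `i` and `i + 1` become `b` and `!b`. -/
def ch (i : ℕ) (b : Bool) (τ : Fin m → Bool) : Fin m → Bool :=
  fun p => if (p : ℕ) = i then b else if (p : ℕ) = i + 1 then !b else τ p

theorem ins_del {i : ℕ} (hi : i + 1 < m) (b : Bool) (σ : ℕ → Bool) :
    insD i b (delD i σ) = ov (ch i b (rs m σ)) σ := by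
  funext p
  simp only [insD, delD, ov, ch, rs]
  split_ifs <;> first | rfl | (exfalso; omega) | (congr 1; omega)

theorem exists_ker_E (s s' : R) {i : ℕ} (hi : i + 1 < m) :
    ∃ c : (Fin m → Bool) → (Fin m → Bool) → R, ∀ f, Dl s i (Bl s' i f) = ker c f := by
  refine ⟨fun σ τ => if σ ⟨i + 1, hi⟩ = !σ ⟨i, by omega⟩ then
    (if σ ⟨i, by omega⟩ then 1 else -s) * ((-s') * (if τ = ch i true σ then 1 else 0) +
      (if τ = ch i false σ then 1 else 0)) else 0, fun f => ?_⟩
  funext σ
  rw [Dl_apply]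
  show _ = ∑ τ, _ * _
  have e1 : rs m σ ⟨i + 1, hi⟩ = σ (i + 1) := rfl
  have e2 : rs m σ ⟨i, by omega⟩ = σ i := rfl
  simp only [e1, e2]
  by_cases h : σ (i + 1) = !σ i
  · simp only [if_pos h]
    rw [Bl_apply, ins_del hi, ins_del hi]
    have : ∀ τ : Fin m → Bool, ((if σ i = true then 1 else -s) *
        (-s' * (if τ = ch i true (rs m σ) then 1 else 0) +
          if τ = ch i false (rs m σ) then 1 else 0)) * f (ov τ σ) =
        ((if σ i = true then 1 else -s) * (-s')) * (if τ = ch i true (rs m σ) then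
          f (ov τ σ) else 0) + (if σ i = true then 1 else -s) *
          (if τ = ch i false (rs m σ) then f (ov τ σ) else 0) := by
      intro τ
      split_ifs <;> ring
    rw [sum_congr rfl fun τ _ => this τ, sum_add_distrib, ← mul_sum, ← mul_sum, sum_ite_eq',
      sum_ite_eq', if_pos (mem_univ _), if_pos (mem_univ _)]
    ring
  · simp only [if_neg h, zero_mul, sum_const_zero]

theorem exists_ker_X (s s' : R) (c : R × R) {i : ℕ} (hi : i + 1 < m) :
    ∃ k : (Fin m → Bool) → (Fin m → Bool) → R, ∀ f, Xl s s' c i f = ker k f := by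
  obtain ⟨e, he⟩ := exists_ker_E s s' hi
  refine ⟨fun σ τ => c.1 * (if τ = σ then 1 else 0) + c.2 * e σ τ, fun f => ?_⟩
  rw [Xl_apply, he f]
  conv_lhs => rw [← ker_id (m := m) f]
  funext σ
  rw [ker_id]
  show c.1 * f σ + c.2 * ker e f σ = _
  conv_lhs => rw [← ker_id (m := m) f]
  rw [ker_id]
  have h1 : f σ = ∑ τ, (if τ = rs m σ then 1 else 0) * f (ov τ σ) := by
    have := congrFun (ker_id (m := m) f) σ
    exact this.symm
  rw [h1]
  unfold ker
  rw [mul_sum, mul_sum, ← sum_add_distrib]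
  exact sum_congr rfl fun τ _ => by ring

theorem exists_ker (s s' : R) (w : Braid) (hw : ∀ l ∈ w, l.2 + 1 < m) :
    ∃ k : (Fin m → Bool) → (Fin m → Bool) → R, ∀ f, TW s s' w f = ker k f := by
  induction w with
  | nil => exact ⟨_, fun f => (ker_id f).symm⟩
  | cons l w ih =>
    obtain ⟨k, hk⟩ := ih fun l' h' => hw l' (List.mem_cons_of_mem _ h')
    obtain ⟨k', hk'⟩ := exists_ker_X s s' (co s s' l.1) (hw l List.mem_cons_self)
    refine ⟨fun σ τ => ∑ ρ, k' σ ρ * k ρ τ, fun f => ?_⟩
    show Xl s s' _ _ (TW s s' w f) = _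
    rw [hk, hk', ker_comp]

end

/-! ### inverses -/

section
variable {R : Type} [CommRing R] {s s' : R}

theorem TW_letter (hs : s * s' = 1) (b : Bool) (i : ℕ) (f : Jones.F R) :
    Xl s s' (co s s' b) i (Xl s s' (co s s' (!b)) i f) = f := by
  cases b
  · exact Jones.neg_pos hs true i f
  · exact Jones.pos_neg hs true i f

theorem TW_inv (hs : s * s' = 1) (w : Braid) (f : Jones.F R) :
    TW s s' w (TW s s' (inv w) f) = f := by
  induction w generalizing f with
  | nil => rfl
  | cons l w ih =>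
    have e : inv (l :: w) = inv w ++ [(!l.1, l.2)] := by simp [inv]
    rw [e, TW_append]
    show Xl s s' _ _ (TW s s' w (TW s s' (inv w) _)) = _
    rw [ih]
    exact TW_letter hs l.1 l.2 f

theorem TW_inv' (hs : s * s' = 1) (w : Braid) (f : Jones.F R) :
    TW s s' (inv w) (TW s s' w f) = f := by
  have := TW_inv hs (inv w) f
  rwa [inv_inv'] at this

/-- The operator of the inverse is determined by the operator of the word. -/
theorem TW_inv_congr (hs : s * s' = 1) {w w' : Braid} (h : TW s s' w = TW s s' w') :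
    TW s s' (inv w) = TW s s' (inv w') := by
  refine LinearMap.ext fun f => ?_
  have := TW_inv' hs w (TW s s' (inv w') f)
  rw [h, TW_inv hs] at this
  exact this

end

end Pool.Agent.T6.H96.LB
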